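import Pool.Agent.BBX.Sys

/-!
# Combinations of automorphisms which kill the forms of the highest degree
-/

set_option autoImplicit false

noncomputable section

namespace Pool.Agent.BBX

open Pool.Agent.BBM
open scoped Classical TensorProduct

variable {S : Type} {𝒮 : Sys S} [Fintype S] {k : S → ℕ}

/-! ### Galois conjugation -/

/-- a vanishing sum of roots of unity with rational coefficients remains zero if the roots of unity
are replaced by their powers with an exponent which is prime to the order -/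
theorem root_conj {L : ℕ} (hL : 0 < L) {I : Type} (s : Finset I) (c : I → ℚ) (u : I → ℂ)
    (hu : ∀ l ∈ s, u l ^ L = 1) {t : ℕ} (ht : t.Coprime L) (h : ∑ l ∈ s, (c l : ℂ) * u l = 0) :
    ∑ l ∈ s, (c l : ℂ) * u l ^ t = 0 := by
  have hNZ : NeZero L := ⟨hL.ne'⟩
  have hζ : IsPrimitiveRoot (Complex.exp (2 * Real.pi * Complex.I / L)) L :=
    Complex.isPrimitiveRoot_exp L hL.ne'
  set ζ : ℂ := Complex.exp (2 * Real.pi * Complex.I / L) with hζd
  have h1 : ∀ l, ∃ e : ℕ, l ∈ s → u l = ζ ^ e := by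
    intro l
    by_cases hl : l ∈ s
    · obtain ⟨e, -, he⟩ := hζ.eq_pow_of_pow_eq_one (hu l hl)
      exact ⟨e, fun _ => he.symm⟩
    · exact ⟨0, fun h => absurd h hl⟩
  choose e he using h1
  set P : Polynomial ℚ := ∑ l ∈ s, Polynomial.C (c l) * Polynomial.X ^ e l with hP
  have hval : ∀ z : ℂ, Polynomial.aeval z P = ∑ l ∈ s, (c l : ℂ) * z ^ e l := by
    intro z
    rw [hP, map_sum]
    refine Finset.sum_congr rfl fun i _ => ?_
    rw [map_mul, Polynomial.aeval_C, map_pow, Polynomial.aeval_X]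
    rfl
  have h2 : Polynomial.aeval ζ P = 0 := by
    rw [hval, ← h]
    exact Finset.sum_congr rfl fun l hl => by rw [he l hl]
  have pt : IsPrimitiveRoot (ζ ^ t) L := hζ.pow_of_coprime _ ht
  have hdvd : minpoly ℚ (ζ ^ t) ∣ P := by
    rw [← Polynomial.cyclotomic_eq_minpoly_rat pt hL, Polynomial.cyclotomic_eq_minpoly_rat hζ hL]
    exact minpoly.dvd ℚ _ h2
  have h3 : Polynomial.aeval (ζ ^ t) P = 0 := by
    obtain ⟨Q, hQ⟩ := hdvd
    rw [hQ, map_mul, minpoly.aeval, zero_mul]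
  rw [hval] at h3
  rw [← h3]
  refine Finset.sum_congr rfl fun l hl => ?_
  rw [he l hl, ← pow_mul, ← pow_mul, mul_comm (e l) t]

/-! ### The parts -/

section parts

variable {W : Type} [AddCommGroup W] [Module ℂ W] {F : Pts 𝒮.P k → W}

/-- the vertices of the product of differences -/
private def vtx (x y : Pts 𝒮.P k) (T : Finset (Idx k)) : Pts 𝒮.P k :=
  fun i => if i ∈ T then y i else x i

/-- the sum over the vertices is zero if the class does not depend on one factor -/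
private theorem alt_zero {M : Type} [AddCommGroup M] [Module ℂ M] (i₀ : Idx k)
    (F : Finset (Idx k) → M) (hF : ∀ T, F (symmDiff T {i₀}) = F T) :
    ∑ T : Finset (Idx k), ((-1 : ℂ) ^ T.card) • F T = 0 := by
  classical
  apply Finset.sum_involution (fun T _ => symmDiff T {i₀})
  · intro T _
    rw [hF T, ← add_smul]
    have h7 : ((-1 : ℂ) ^ T.card) + (-1 : ℂ) ^ (symmDiff T {i₀}).card = 0 := by
      by_cases hS : i₀ ∈ T
      · have : symmDiff T {i₀} = T.erase i₀ := by
          ext l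
          rw [Finset.mem_symmDiff, Finset.mem_erase, Finset.mem_singleton]
          constructor
          · rintro (⟨h, h'⟩ | ⟨h, h'⟩)
            · exact ⟨h', h⟩
            · subst h
              exact absurd hS h'
          · rintro ⟨h, h'⟩
            exact Or.inl ⟨h', h⟩
        rw [this]
        have h8 := Finset.card_erase_add_one hS
        rw [← h8, pow_succ]
        ring
      · have : symmDiff T {i₀} = insert i₀ T := by
          ext l
          rw [Finset.mem_symmDiff, Finset.mem_insert, Finset.mem_singleton]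
          constructor
          · rintro (⟨h, h'⟩ | ⟨h, h'⟩)
            · exact Or.inr h
            · exact Or.inl h
          · rintro (h | h)
            · subst h
              exact Or.inr ⟨rfl, hS⟩
            · refine Or.inl ⟨h, ?_⟩
              rintro rfl
              exact hS h
        rw [this, Finset.card_insert_of_notMem hS, pow_succ]
        ring
    rw [h7, zero_smul]
  · intro T _ _ h
    have : i₀ ∈ symmDiff T {i₀} ↔ i₀ ∈ T := by rw [h]
    rw [Finset.mem_symmDiff] at this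
    by_cases hS : i₀ ∈ T <;> simp [hS] at this
  · intro T _
    exact symmDiff_symmDiff_cancel_right _ _
  · intro T _
    exact Finset.mem_univ _

/-- the part of one family of characters -/
private theorem part_zero (h : 𝒮.Ok) (hF : 𝒮.IsCl F)
    (γ : ((∀ s, Equiv.Perm (Fin (k s))) × (∀ i : Idx k, 𝒮.G i.1)) →₀ ℚ) (hγ : 𝒮.KillsTop γ)
    (x y : Pts 𝒮.P k) (c : ∀ i : Idx k, 𝒮.C i.1) :
    ∑ g ∈ γ.support, (γ g : ℂ) • ∑ T : Finset (Idx k), ((-1 : ℂ) ^ T.card) •
      (∏ i, 𝒮.chi i.1 (c i) (g.2 i)) • 𝒮.E c F (permP g.1 (vtx x y T)) = 0 := by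
  rcases h.cases hF c with ⟨i₀, h1⟩ | h1 | ⟨t, ht, b, hb⟩
  · -- the part does not depend on one point
    refine Finset.sum_eq_zero fun g _ => ?_
    rw [alt_zero (⟨i₀.1, (g.1 i₀.1) i₀.2⟩ : Idx k), smul_zero]
    intro T
    congr 1
    set i' : Idx k := ⟨i₀.1, (g.1 i₀.1) i₀.2⟩ with hi'
    have h2 : permP g.1 (vtx x y (symmDiff T {i'})) =
        Function.update (permP g.1 (vtx x y T)) i₀
          (permP g.1 (vtx x y (symmDiff T {i'})) i₀) := by
      funext i
      by_cases hi : i = i₀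
      · subst hi
        rw [Function.update_self]
      · rw [Function.update_of_ne hi]
        have h3 : (⟨i.1, g.1 i.1 i.2⟩ : Idx k) ≠ i' := by
          intro h
          apply hi
          obtain ⟨s, l⟩ := i
          obtain ⟨s', l'⟩ := i₀
          rw [hi'] at h
          obtain ⟨h4, h5⟩ := Sigma.mk.inj_iff.1 h
          simp only at h4
          subst h4
          have h6 := (g.1 s).injective (eq_of_heq h5)
          simp only at h6
          rw [h6]
        simp only [vtx, permP]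
        have h4 : ((⟨i.1, g.1 i.1 i.2⟩ : Idx k) ∈ symmDiff T {i'}) ↔
            (⟨i.1, g.1 i.1 i.2⟩ : Idx k) ∈ T := by
          rw [Finset.mem_symmDiff, Finset.mem_singleton]
          constructor
          · rintro (⟨h, _⟩ | ⟨h, _⟩)
            · exact h
            · exact absurd h h3
          · intro h
            exact Or.inl ⟨h, h3⟩
        simp only [h4]
    rw [h2]
    exact h1 _ _
  · -- the part is zero
    refine Finset.sum_eq_zero fun g _ => ?_
    have : ∑ T : Finset (Idx k), ((-1 : ℂ) ^ T.card) •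
        (∏ i, 𝒮.chi i.1 (c i) (g.2 i)) • 𝒮.E c F (permP g.1 (vtx x y T)) = 0 := by
      refine Finset.sum_eq_zero fun T _ => ?_
      rw [h1, smul_zero, smul_zero]
    rw [this, smul_zero]
  -- the conjugates of the forms
  have hswap : ∑ g ∈ γ.support, (γ g : ℂ) • ∑ T : Finset (Idx k),
      ((-1 : ℂ) ^ T.card) • (∏ i, 𝒮.chi i.1 (c i) (g.2 i)) • 𝒮.E c F (permP g.1 (vtx x y T)) =
      ∑ T : Finset (Idx k), ((-1 : ℂ) ^ T.card) • ∑ g ∈ γ.support,
        ((γ g : ℂ) * ∏ i, 𝒮.chi i.1 (c i) (g.2 i)) • 𝒮.E c F (permP g.1 (vtx x y T)) := by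
    simp only [Finset.smul_sum]
    rw [Finset.sum_comm]
    refine Finset.sum_congr rfl fun T _ => Finset.sum_congr rfl fun g _ => ?_
    simp only [smul_smul]
    congr 1
    ring
  rw [hswap]
  refine Finset.sum_eq_zero fun T _ => ?_
  have key : ∑ g ∈ γ.support,
      ((γ g : ℂ) * ∏ i, 𝒮.chi i.1 (c i) (g.2 i)) • 𝒮.E c F (permP g.1 (vtx x y T)) = 0 := by
    let f : ((∀ s, Equiv.Perm (Fin (k s))) × (∀ i : Idx k, 𝒮.G i.1)) →
        (∀ i : Idx k, 𝒮.Form i.1) := fun g i => b ⟨i.1, (g.1 i.1).symm i.2⟩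
    rw [← Finset.sum_fiberwise_of_maps_to (s := γ.support) (t := γ.support.image f)
      (g := f) (fun g hg => Finset.mem_image_of_mem f hg)]
    refine Finset.sum_eq_zero fun b' he => ?_
    obtain ⟨g₀, hg₀, hge⟩ := Finset.mem_image.1 he
    -- the sign
    have hsign : ∀ g, f g = b' → 𝒮.E c F (permP g.1 (vtx x y T)) =
        ((∏ s, (((Equiv.Perm.sign (g.1 s) : ℤˣ) : ℤ) : ℂ) ^ 𝒮.n s) *
          (∏ s, (((Equiv.Perm.sign (g₀.1 s) : ℤˣ) : ℤ) : ℂ) ^ 𝒮.n s)) •
            𝒮.E c F (permP g₀.1 (vtx x y T)) := by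
      intro g hg
      let τ : ∀ s, Equiv.Perm (Fin (k s)) := fun s => (g₀.1 s)⁻¹ * g.1 s
      have hτ1 : ∀ s l, τ s l = (g₀.1 s).symm (g.1 s l) := fun s l => rfl
      have hτa : ∀ i : Idx k, c ⟨i.1, τ i.1 i.2⟩ = c i := by
        intro i
        rw [hb, hb]
        have h2 := congrFun (hg.trans hge.symm) ⟨i.1, g.1 i.1 i.2⟩
        have h2' : b ⟨i.1, (g.1 i.1).symm (g.1 i.1 i.2)⟩ = b ⟨i.1, τ i.1 i.2⟩ := h2
        rw [Equiv.symm_apply_apply] at h2'
        rw [← h2']
      have h3 := E_perm h hF c ht b hb τ hτa (permP g₀.1 (vtx x y T))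
      have h4 : permP τ (permP g₀.1 (vtx x y T)) = permP g.1 (vtx x y T) := by
        funext i
        have e1 : g₀.1 i.1 (τ i.1 i.2) = g.1 i.1 i.2 := Equiv.apply_symm_apply _ _
        simp only [permP]
        rw [e1]
      rw [h4] at h3
      rw [h3]
      congr 1
      rw [← Finset.prod_mul_distrib]
      refine Finset.prod_congr rfl fun s _ => ?_
      have h5 : Equiv.Perm.sign (τ s) = Equiv.Perm.sign (g₀.1 s) * Equiv.Perm.sign (g.1 s) := by
        rw [Equiv.Perm.sign_mul, Equiv.Perm.sign_inv]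
      rw [h5, ← mul_pow]
      push_cast
      ring
    have h6 : ∑ g ∈ γ.support with f g = b',
        ((γ g : ℂ) * ∏ i, 𝒮.chi i.1 (c i) (g.2 i)) • 𝒮.E c F (permP g.1 (vtx x y T)) =
        (∑ g ∈ γ.support with f g = b',
          (((γ g * ∏ s, (((Equiv.Perm.sign (g.1 s) : ℤˣ) : ℤ) : ℚ) ^ 𝒮.n s : ℚ)) : ℂ) *
          (∏ i, 𝒮.om i.1 (b i) (g.2 i)) ^ t) •
          ((∏ s, (((Equiv.Perm.sign (g₀.1 s) : ℤˣ) : ℤ) : ℂ) ^ 𝒮.n s) •
            𝒮.E c F (permP g₀.1 (vtx x y T))) := by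
      rw [Finset.sum_smul]
      refine Finset.sum_congr rfl fun g hg => ?_
      rw [hsign g (Finset.mem_filter.1 hg).2, smul_smul, smul_smul]
      congr 1
      have h7 : ∀ i : Idx k, 𝒮.chi i.1 (c i) (g.2 i) = 𝒮.om i.1 (b i) (g.2 i) ^ t := by
        intro i
        rw [hb, h.chi_cj _ _ _ _ ht]
      rw [Finset.prod_congr rfl fun i _ => h7 i, Finset.prod_pow]
      push_cast
      ring
    rw [h6]
    have h8 := hγ b b'
    have h9 : ∀ g, (f g = b') ↔ ∀ i : Idx k, b' ⟨i.1, g.1 i.1 i.2⟩ = b i := by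
      intro g
      constructor
      · intro h i
        rw [← h]
        change b ⟨i.1, (g.1 i.1).symm (g.1 i.1 i.2)⟩ = b i
        rw [Equiv.symm_apply_apply]
      · intro h
        funext i
        change b ⟨i.1, (g.1 i.1).symm i.2⟩ = b' i
        have h10 := h ⟨i.1, (g.1 i.1).symm i.2⟩
        rw [← h10]
        change b' ⟨i.1, g.1 i.1 ((g.1 i.1).symm i.2)⟩ = b' i
        rw [Equiv.apply_symm_apply]
    have h10 := root_conj h.L_pos (γ.support.filter fun g => f g = b')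
      (fun g => γ g * ∏ s, (((Equiv.Perm.sign (g.1 s) : ℤˣ) : ℤ) : ℚ) ^ 𝒮.n s)
      (fun g => ∏ i, 𝒮.om i.1 (b i) (g.2 i)) (fun g _ => by
        rw [← Finset.prod_pow]
        exact Finset.prod_eq_one fun i _ => h.om_pow _ _ _) ht (by
        rw [Finset.filter_congr fun g _ => h9 g]
        refine (Finset.sum_congr rfl fun g _ => ?_).trans h8
        push_cast
        ring)
    rw [h10, zero_smul]
  rw [key, smul_zero]

/-- the combination of the values of a class function -/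
theorem top_cl (h : 𝒮.Ok) (hF : 𝒮.IsCl F)
    (γ : ((∀ s, Equiv.Perm (Fin (k s))) × (∀ i : Idx k, 𝒮.G i.1)) →₀ ℚ) (hγ : 𝒮.KillsTop γ)
    (x y : Pts 𝒮.P k) :
    ∑ g ∈ γ.support, (γ g : ℂ) • ∑ T : Finset (Idx k), ((-1 : ℂ) ^ T.card) •
      F (symAct 𝒮.act g.1 g.2 (vtx x y T)) = 0 := by
  have h1 : ∀ (g : (∀ s, Equiv.Perm (Fin (k s))) × (∀ i : Idx k, 𝒮.G i.1)) (T : Finset (Idx k)),
      F (symAct 𝒮.act g.1 g.2 (vtx x y T)) =
      ∑ c : (∀ i : Idx k, 𝒮.C i.1), (∏ i, 𝒮.chi i.1 (c i) (g.2 i)) •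
        𝒮.E c F (permP g.1 (vtx x y T)) := by
    intro g T
    rw [← sum_E h F]
    refine Finset.sum_congr rfl fun c _ => ?_
    rw [← E_act h hF]
    rfl
  simp only [h1]
  have h2 : ∑ g ∈ γ.support, (γ g : ℂ) • ∑ T : Finset (Idx k), ((-1 : ℂ) ^ T.card) •
      ∑ c : (∀ i : Idx k, 𝒮.C i.1), (∏ i, 𝒮.chi i.1 (c i) (g.2 i)) •
        𝒮.E c F (permP g.1 (vtx x y T)) =
      ∑ c : (∀ i : Idx k, 𝒮.C i.1), ∑ g ∈ γ.support, (γ g : ℂ) • ∑ T : Finset (Idx k),
        ((-1 : ℂ) ^ T.card) • (∏ i, 𝒮.chi i.1 (c i) (g.2 i)) •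
          𝒮.E c F (permP g.1 (vtx x y T)) := by
    rw [Finset.sum_comm]
    refine Finset.sum_congr rfl fun g _ => ?_
    rw [← Finset.smul_sum]
    congr 1
    rw [Finset.sum_comm]
    refine Finset.sum_congr rfl fun T _ => ?_
    rw [← Finset.smul_sum]
  rw [h2]
  exact Finset.sum_eq_zero fun c _ => part_zero h hF γ hγ x y c

end parts

/-! ### Zero-cycles -/

/-- the image of a zero-cycle under a combination of automorphisms -/
def push (𝒮 : Sys S) {k : S → ℕ}
    (γ : ((∀ s, Equiv.Perm (Fin (k s))) × (∀ i : Idx k, 𝒮.G i.1)) →₀ ℚ)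
    (z : Pts 𝒮.P k →₀ ℚ) : Pts 𝒮.P k →₀ ℚ :=
  γ.sum fun g c => c • z.mapDomain (symAct 𝒮.act g.1 g.2)

/-- A combination of automorphisms which kills the forms of the highest degree kills the products of
differences of points. -/
theorem top (h : 𝒮.Ok)
    (γ : ((∀ s, Equiv.Perm (Fin (k s))) × (∀ i : Idx k, 𝒮.G i.1)) →₀ ℚ) (hγ : 𝒮.KillsTop γ)
    (x y : Pts 𝒮.P k) : push 𝒮 γ (cyc ℚ Finset.univ x y) ∈ 𝒮.rat k := by
  let V := (Pts 𝒮.P k →₀ ℚ) ⧸ 𝒮.rat k
  let F : Pts 𝒮.P k → ℂ ⊗[ℚ] V := fun p =>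
    (1 : ℂ) ⊗ₜ[ℚ] (Submodule.Quotient.mk (Finsupp.single p (1 : ℚ)) : V)
  have hlin : ∀ z : Pts 𝒮.P k →₀ ℚ, (z.sum fun p c => (c : ℂ) • F p) =
      (1 : ℂ) ⊗ₜ[ℚ] (Submodule.Quotient.mk z : V) := by
    intro z
    have h1 : (Submodule.Quotient.mk z : V) =
        z.sum fun p c => c • (Submodule.Quotient.mk (Finsupp.single p (1 : ℚ)) : V) := by
      conv_lhs => rw [← Finsupp.sum_single z]
      rw [Finsupp.sum, ← Submodule.mkQ_apply, map_sum, Finsupp.sum]
      refine Finset.sum_congr rfl fun p _ => ?_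
      rw [← Submodule.Quotient.mk_smul, Finsupp.smul_single, smul_eq_mul, mul_one]
      rfl
    rw [h1, Finsupp.sum, Finsupp.sum, TensorProduct.tmul_sum]
    refine Finset.sum_congr rfl fun p _ => ?_
    change ((z p : ℚ) : ℂ) • ((1 : ℂ) ⊗ₜ[ℚ] _) = _
    rw [TensorProduct.tmul_smul]
    exact Rat.cast_smul_eq_qsmul ℂ (z p) _
  have hF : 𝒮.IsCl F := by
    intro z hz
    rw [hlin, (Submodule.Quotient.mk_eq_zero _).2 hz, TensorProduct.tmul_zero]
  have h1 := top_cl h hF γ hγ x y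
  have hinj : Function.Injective (TensorProduct.mk ℚ ℂ V 1) := by
    have h1 : Function.Injective (LinearMap.rTensor V (Algebra.linearMap ℚ ℂ)) :=
      Module.Flat.rTensor_preserves_injective_linearMap _ (algebraMap ℚ ℂ).injective
    intro x y hxy
    apply (TensorProduct.lid ℚ V).symm.injective
    apply h1
    simpa using hxy
  rw [← Submodule.Quotient.mk_eq_zero]
  apply hinj
  rw [map_zero, ← h1]
  change (1 : ℂ) ⊗ₜ[ℚ] (Submodule.Quotient.mk (push 𝒮 γ (cyc ℚ Finset.univ x y)) : V) = _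
  rw [← hlin]
  have hs : ∀ z : Pts 𝒮.P k →₀ ℚ, (z.sum fun p c => (c : ℂ) • F p) =
      Finsupp.linearCombination ℚ F z := by
    intro z
    rw [Finsupp.linearCombination_apply]
    refine Finset.sum_congr rfl fun p _ => ?_
    exact Rat.cast_smul_eq_qsmul ℂ (z p) (F p)
  rw [hs]
  unfold push cyc
  rw [Finsupp.sum, map_sum]
  refine Finset.sum_congr rfl fun g _ => ?_
  rw [map_smul, Finset.powerset_univ, Finsupp.mapDomain_finsetSum, map_sum,
    ← Rat.cast_smul_eq_qsmul ℂ]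
  congr 1
  refine Finset.sum_congr rfl fun T _ => ?_
  rw [Finsupp.mapDomain_single, Finsupp.linearCombination_single,
    ← Rat.cast_smul_eq_qsmul ℂ]
  congr 1
  push_cast
  rfl

end Pool.Agent.BBX
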