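import Pool.Agent.BBX.InstB
import Pool.Agent.BBX.Top
import Pool.Agent.BBX.Funct
import Pool.Agent.BBM.Induce
import Pool.Agent.BBM.Alb
import Pool.Agent.BBM.Grad

/-!
# Conditions 1-4
-/

set_option autoImplicit false

noncomputable section

namespace Pool.Agent.BBX

open Pool.Agent.ZCyc Pool.Agent.BBM
open scoped LinearAlgebra.Projectivization

section indu

variable {S : Type} {P G : S → Type} {m m' k : S → ℕ}

/-- the combination of automorphisms induced on the factors `I`, `J` -/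
private def indu (γ : Mor P G m m' →₀ ℚ) (I : ∀ s, Fin (k s) ↪o Fin (m s))
    (J : ∀ s, Fin (k s) ↪o Fin (m' s)) :
    ((∀ s, Equiv.Perm (Fin (k s))) × (∀ i : Idx k, G i.1)) →₀ ℚ := by
  classical
  exact ∑ f ∈ γ.support, if h : ∃ g : (∀ s, Equiv.Perm (Fin (k s))) × (∀ i : Idx k, G i.1),
    Induces f I J g.1 g.2 then Finsupp.single h.choose (γ f) else 0

private theorem indu_sum {M : Type} [AddCommMonoid M] (γ : Mor P G m m' →₀ ℚ)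
    (I : ∀ s, Fin (k s) ↪o Fin (m s)) (J : ∀ s, Fin (k s) ↪o Fin (m' s))
    (F : (∀ s, Equiv.Perm (Fin (k s))) × (∀ i : Idx k, G i.1) → ℚ → M)
    (h0 : ∀ g, F g 0 = 0) (hadd : ∀ g a b, F g (a + b) = F g a + F g b) :
    (indu γ I J).sum F = ∑ f ∈ γ.support, (by
      classical
      exact if h : ∃ g : (∀ s, Equiv.Perm (Fin (k s))) × (∀ i : Idx k, G i.1),
        Induces f I J g.1 g.2 then F h.choose (γ f) else 0 : M) := by
  classical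
  unfold indu
  rw [← Finsupp.sum_finsetSum_index h0 hadd]
  apply Finset.sum_congr rfl
  intro f _
  by_cases h : ∃ g : (∀ s, Equiv.Perm (Fin (k s))) × (∀ i : Idx k, G i.1),
    Induces f I J g.1 g.2
  · rw [dif_pos h, dif_pos h, Finsupp.sum_single_index (h0 _)]
  · rw [dif_neg h, dif_neg h, Finsupp.sum_zero_index]

private theorem push_indu [Fintype S] [DecidableEq S] (act : ∀ s, G s → P s → P s)
    (γ : Mor P G m m' →₀ ℚ) (I : ∀ s, Fin (k s) ↪o Fin (m s))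
    (J : ∀ s, Fin (k s) ↪o Fin (m' s)) (x y : Pts P k) :
    ((indu γ I J).sum fun g c => c • (cyc ℚ Finset.univ x y).mapDomain (symAct act g.1 g.2)) =
      ∑ f ∈ γ.support, γ f • inducedMap (R := ℚ) act f I J x y := by
  rw [indu_sum γ I J (fun g c => c • (cyc ℚ Finset.univ x y).mapDomain
    (symAct act g.1 g.2)) (fun g => by simp) (fun g a b => by rw [add_smul])]
  apply Finset.sum_congr rfl
  intro f _
  unfold inducedMap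
  by_cases h : ∃ g : (∀ s, Equiv.Perm (Fin (k s))) × (∀ i : Idx k, G i.1),
    Induces f I J g.1 g.2
  · rw [dif_pos h, dif_pos h]
  · rw [dif_neg h, dif_neg h, smul_zero]

private theorem top' [Fintype S] [D : DecidableEq S] {𝒮 : Sys S} (h : 𝒮.Ok)
    (γ : ((∀ s, Equiv.Perm (Fin (k s))) × (∀ i : Idx k, 𝒮.G i.1)) →₀ ℚ) (hγ : 𝒮.KillsTop γ)
    (x y : Pts 𝒮.P k) :
    (γ.sum fun g c => c • (cyc ℚ Finset.univ x y).mapDomain (symAct 𝒮.act g.1 g.2)) ∈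
      𝒮.rat k := by
  have hD : D = fun a b => Classical.propDecidable (a = b) := Subsingleton.elim _ _
  subst hD
  exact top h γ hγ x y

private theorem kills_gen [Fintype S] {𝒮 : Sys S} (γ : Mor 𝒮.P 𝒮.G m m' →₀ ℚ)
    (I : ∀ s, Fin (k s) ↪o Fin (m s)) (J : ∀ s, Fin (k s) ↪o Fin (m' s))
    (h1 : ∀ b b' : ∀ i : Idx k, 𝒮.Form i.1, ∑ f ∈ γ.support, (γ f : ℂ) * (by
      classical
      exact if h : ∃ g : (∀ s, Equiv.Perm (Fin (k s))) × (∀ i : Idx k, 𝒮.G i.1),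
        Induces f I J g.1 g.2 ∧ ∀ i : Idx k, b' ⟨i.1, g.1 i.1 i.2⟩ = b i then
      (∏ s, (((Equiv.Perm.sign (h.choose.1 s) : ℤˣ) : ℤ) : ℂ) ^ 𝒮.n s) *
        ∏ i : Idx k, 𝒮.om i.1 (b i) (h.choose.2 i) else 0 : ℂ) = 0) :
    𝒮.KillsTop (indu γ I J) := by
  intro b b'
  obtain ⟨T, hT⟩ : ∃ T : (∀ s, Equiv.Perm (Fin (k s))) × (∀ i : Idx k, 𝒮.G i.1) → ℂ,
      T = fun g => (∏ s, (((Equiv.Perm.sign (g.1 s) : ℤˣ) : ℤ) : ℂ) ^ 𝒮.n s) *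
        ∏ i : Idx k, 𝒮.om i.1 (b i) (g.2 i) := ⟨_, rfl⟩
  have h3 : ∀ D : DecidablePred fun g : (∀ s, Equiv.Perm (Fin (k s))) ×
      (∀ i : Idx k, 𝒮.G i.1) => ∀ i : Idx k, b' ⟨i.1, g.1 i.1 i.2⟩ = b i,
      ∑ g ∈ (indu γ I J).support.filter (fun g => ∀ i : Idx k, b' ⟨i.1, g.1 i.1 i.2⟩ = b i),
        ((indu γ I J g : ℚ) : ℂ) * T g = 0 := by
    intro D
    have h2 : ∑ g ∈ (indu γ I J).support.filter
        (fun g => ∀ i : Idx k, b' ⟨i.1, g.1 i.1 i.2⟩ = b i), ((indu γ I J g : ℚ) : ℂ) * T g =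
        (indu γ I J).sum fun g c => if ∀ i : Idx k, b' ⟨i.1, g.1 i.1 i.2⟩ = b i then
          (c : ℂ) * T g else 0 := by
      rw [Finset.sum_filter]
      rfl
    rw [h2, indu_sum γ I J _ (fun g => by simp) (fun g c c' => by
      split_ifs
      · push_cast
        ring
      · simp)]
    refine Eq.trans (Finset.sum_congr rfl fun f _ => ?_) (h1 b b')
    classical
    by_cases h : ∃ g : (∀ s, Equiv.Perm (Fin (k s))) × (∀ i : Idx k, 𝒮.G i.1),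
      Induces f I J g.1 g.2
    · rw [dif_pos h]
      by_cases h4 : ∀ i : Idx k, b' ⟨i.1, h.choose.1 i.1 i.2⟩ = b i
      · have h5 : ∃ g : (∀ s, Equiv.Perm (Fin (k s))) × (∀ i : Idx k, 𝒮.G i.1),
            Induces f I J g.1 g.2 ∧ ∀ i : Idx k, b' ⟨i.1, g.1 i.1 i.2⟩ = b i :=
          ⟨h.choose, h.choose_spec, h4⟩
        have h6 : h5.choose = h.choose := by
          obtain ⟨h7, h8⟩ := h5.choose_spec.1.unique h.choose_spec
          exact Prod.ext h7 h8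
        rw [if_pos h4, dif_pos h5, hT, h6]
      · have h5 : ¬ ∃ g : (∀ s, Equiv.Perm (Fin (k s))) × (∀ i : Idx k, 𝒮.G i.1),
            Induces f I J g.1 g.2 ∧ ∀ i : Idx k, b' ⟨i.1, g.1 i.1 i.2⟩ = b i := by
          rintro ⟨g, hg, hb⟩
          obtain ⟨h7, h8⟩ := hg.unique h.choose_spec
          exact h4 fun i => by
            rw [← h7]
            exact hb i
        rw [if_neg h4, dif_neg h5, mul_zero]
    · rw [dif_neg h, dif_neg fun ⟨g, hg, _⟩ => h ⟨g, hg⟩, mul_zero]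
  rw [hT] at h3
  exact h3 _

end indu

variable {S₁ S₂ S₃ : Type} [Fintype S₁] [Fintype S₂] [Fintype S₃] {Y : Fly S₁ S₂ S₃}
  {m m' k : S₁ ⊕ S₂ ⊕ S₃ → ℕ}

private theorem kills_indu [∀ s, NeZero (Y.d s)] [∀ s i, NeZero (Y.M s i)]
    (γ : Mor Y.P Y.G m m' →₀ ℚ) {ν : ℕ} (hγ : Y.KillsForms γ ν) (hν : ν = ∑ s, Y.n s * k s)
    (I : ∀ s, Fin (k s) ↪o Fin (m s)) (J : ∀ s, Fin (k s) ↪o Fin (m' s)) :
    Y.sys.KillsTop (indu γ I J) :=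
  kills_gen (𝒮 := Y.sys) γ I J fun b b' => hγ k hν I J b b'

/-- the case `ν = 0` -/
private theorem sum_zero (γ : Mor Y.P Y.G m m' →₀ ℚ) (hγ : Y.KillsForms γ 0) :
    (γ.sum fun _ c => c) = 0 := by
  have I0 : ∀ m : S₁ ⊕ S₂ ⊕ S₃ → ℕ, ∀ s, Fin ((0 : S₁ ⊕ S₂ ⊕ S₃ → ℕ) s) ↪o Fin (m s) :=
    fun m s => ⟨⟨fun i => i.elim0, fun i => i.elim0⟩, fun {i} => i.elim0⟩
  have hempty : ∀ P : Prop, (i : Idx (0 : S₁ ⊕ S₂ ⊕ S₃ → ℕ)) → P := fun P i => i.2.elim0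
  obtain ⟨b⟩ : Nonempty (∀ i : Idx (0 : S₁ ⊕ S₂ ⊕ S₃ → ℕ), Y.Form i.1) :=
    ⟨fun i => i.2.elim0⟩
  have h1 := hγ 0 (by simp) (I0 m) (I0 m') b b
  have h2 : ∀ f : Mor Y.P Y.G m m', Y.coef f (I0 m) (I0 m') b b = 1 := by
    intro f
    unfold Fly.coef
    have h3 : ∃ g : (∀ s, Equiv.Perm (Fin ((0 : S₁ ⊕ S₂ ⊕ S₃ → ℕ) s))) ×
        (∀ i : Idx (0 : S₁ ⊕ S₂ ⊕ S₃ → ℕ), Y.G i.1), Induces f (I0 m) (I0 m') g.1 g.2 ∧
          ∀ i : Idx (0 : S₁ ⊕ S₂ ⊕ S₃ → ℕ), b ⟨i.1, g.1 i.1 i.2⟩ = b i :=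
      ⟨⟨fun _ => 1, fun i => i.2.elim0⟩, fun i => hempty _ i, fun i => hempty _ i⟩
    rw [dif_pos h3]
    have h4 : h3.choose.1 = fun _ => 1 := by
      funext s
      ext l
      exact l.elim0
    have h5 : IsEmpty (Idx (0 : S₁ ⊕ S₂ ⊕ S₃ → ℕ)) := ⟨fun i => i.2.elim0⟩
    rw [h4, Finset.univ_eq_empty (α := Idx (0 : S₁ ⊕ S₂ ⊕ S₃ → ℕ))]
    simp
  simp only [h2, mul_one] at h1
  rw [Finsupp.sum]
  exact_mod_cast h1

theorem conditions [DecidableEq S₁] [DecidableEq S₂] [DecidableEq S₃] (hS : HYG.SwapAll ℂ)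
    (hY : Y.Ok) :
    (∀ m ν, Y.rat m ≤ Fil Y.rat Y.n m ν ∧ Fil Y.rat Y.n m (ν + 1) ≤ Fil Y.rat Y.n m ν) ∧
    (∀ m, Fil Y.rat Y.n m 0 = ⊤) ∧
    (∀ m z, z ∈ Fil Y.rat Y.n m 1 ↔ (z.sum fun _ c => c) = 0) ∧
    (∀ m z, z ∈ Fil Y.rat Y.n m 2 ↔ (z.sum fun _ c => c) = 0 ∧
      ∀ m' : S₁ ⊕ S₂ ⊕ S₃ → ℕ, ∑ s, Y.n s * m' s = 1 → ∀ f : Mor Y.P Y.G m m',
        z.mapDomain (f.app Y.act) ∈ Y.rat m') ∧
    (∀ m, Fil Y.rat Y.n m (∑ s, Y.n s * m s + 1) = Y.rat m) ∧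
    (∀ m m' ν (γ : Mor Y.P Y.G m m' →₀ ℚ),
      (Fil Y.rat Y.n m ν).map (pushM Y.act γ) ≤ Fil Y.rat Y.n m' ν) ∧
    (∀ m m' ν (γ : Mor Y.P Y.G m m' →₀ ℚ), Y.KillsForms γ ν →
      (Fil Y.rat Y.n m ν).map (pushM Y.act γ) ≤ Fil Y.rat Y.n m' (ν + 1)) := by
  have hd : ∀ s, NeZero (Y.d s) := fun s => ⟨by have h1 := (hY.dim₁ s).1; omega⟩
  have hM : ∀ s i, NeZero (Y.M s i) := fun s i => ⟨by have h1 := hY.exp s i; omega⟩
  have hne : ∀ s, Nonempty (Y.P s) := P_nonempty hY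
  have hn : ∀ s, 1 ≤ Y.n s := by
    rintro (s | s | s)
    · have h1 := (hY.dim₁ s).2
      change 1 ≤ Y.r s * Y.d s - Y.r s - 1
      omega
    · have h1 := hY.dim₂ s
      change 1 ≤ Y.l s - 1
      omega
    · change 1 ≤ 3
      omega
  have hrat : ∀ (m m' : S₁ ⊕ S₂ ⊕ S₃ → ℕ) (f : Mor Y.P Y.G m m'),
      (Y.rat m).map (Finsupp.lmapDomain ℚ ℚ (f.app Y.act)) ≤ Y.rat m' := fun m m' f => rat_map f
  have hdeg : ∀ (m : S₁ ⊕ S₂ ⊕ S₃ → ℕ), ∀ z ∈ Y.rat m, (z.sum fun _ c => c) = 0 :=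
    fun m z hz => rat_deg hz
  refine ⟨fun m ν => ⟨rat_le_Fil Y.n ν, Fil_anti Y.n ν⟩, fun m => Fil_zero Y.n,
    fun m z => Fil_one Y.n hn (hdeg m) z,
    fun m z => Fil_two (act := Y.act) (e := Y.id) act_id Y.n hn hrat hdeg z,
    fun m => Fil_top Y.n, fun m m' ν γ => map_pushM_le Y.n ν (hrat m m') γ,
    fun m m' ν γ hγ => Fil_grad (e := Y.id) act_id Y.n hn hrat hdeg γ ν ?_ ?_⟩
  · rintro rfl
    exact sum_zero γ hγ
  · intro k hk hν I J x y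
    rw [← push_indu]
    exact top' (𝒮 := Y.sys) (sys_ok hS hY) _ (kills_indu γ hγ hν I J) x y

end Pool.Agent.BBX
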