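import Pool.Agent.HYG.RatGenS
import Mathlib

/-!
# Divisors of functions and Galois coverings of the line, for functions on the places

This is `HYG.rat_gen_set` for an arbitrary function `Ψ` on the places of a curve with values in a
complex vector space: if `Ψ` kills the fibres of all Galois coverings of the line which dominate
the curve then it kills all divisors of functions. The proof is the proof of `HYG.rat_gen_set`
(file `Pool/Agent/HYG/RatGenS.lean`) with `Ψ v` for `Finsupp.single (y v) 1` and with equations `=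
0` for the membership in `MPC.ratEquiv` (case of a constant `f`; `g = f / (f + 1)`;
`DWG.exists_gal`, `DWG.count`, `DWG.ord_split`).
-/

set_option autoImplicit false

noncomputable section

namespace Pool.Agent.BBX

open Pool.Agent.ZCyc Pool.Agent.Dess Pool.Agent.TInc Pool.Agent.GT Pool.Agent.DWK
open Pool.Agent.VFP (Om tt)
open scoped Classical LinearAlgebra.Projectivization

private theorem sub_C_RatGen (F : IntermediateField (RatFunc ℂ) (Om ℂ)) (a : ℂ) :
    algebraMap (RatFunc ℂ) F (RatFunc.X - RatFunc.C a) =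
      algebraMap (RatFunc ℂ) F RatFunc.X - algebraMap ℂ F a := by
  rw [map_sub]
  congr 1

/-- the place of `K` below a place of `F` -/
private theorem exists_bel_RatGen {K : Type} [Field K] [Algebra ℂ K] {g : K}
    (F : IntermediateField (RatFunc ℂ) (Om ℂ)) [FiniteDimensional (RatFunc ℂ) F]
    (j : K →ₐ[ℂ] F) (hj : j g = algebraMap (RatFunc ℂ) F RatFunc.X) (w : Place ℂ F) :
    ∃ v : Place ℂ K, w.ring.comap (j : K →+* F) = v.ring := by
  refine ⟨⟨w.ring.comap (j : K →+* F), fun c => ?_, fun htop => ?_⟩, rfl⟩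
  · rw [ValuationSubring.mem_comap]
    have h1 : (j : K →+* F) (algebraMap ℂ K c) = algebraMap ℂ F c := j.commutes c
    rw [h1]
    exact w.const_mem _
  · have hr : ∀ z : K, j z ∈ w.ring := by
      intro z
      have : z ∈ w.ring.comap (j : K →+* F) := by
        rw [htop]
        exact ValuationSubring.mem_top z
      exact ValuationSubring.mem_comap.1 this
    have hp : ∀ p : Polynomial ℂ, algebraMap (RatFunc ℂ) F (algebraMap (Polynomial ℂ)
        (RatFunc ℂ) p) = j (Polynomial.aeval g p) := by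
      intro p
      rw [← Polynomial.aeval_algHom_apply, hj]
      induction p using Polynomial.induction_on' with
      | add p q hp hq => rw [map_add, map_add, map_add, hp, hq]
      | monomial n a =>
        rw [Polynomial.aeval_monomial, ← Polynomial.C_mul_X_pow_eq_monomial, map_mul,
          map_mul, map_pow, map_pow, RatFunc.algebraMap_X]
        congr 1
    have hq : ∀ q : RatFunc ℂ, algebraMap (RatFunc ℂ) F q ∈ w.ring := by
      intro q
      rw [← RatFunc.num_div_denom q, map_div₀, hp, hp, ← map_div₀]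
      exact hr _
    apply w.ne_top
    ext z
    refine ⟨fun _ => ValuationSubring.mem_top z, fun _ => ?_⟩
    have hz : IsIntegral (RatFunc ℂ) z := Algebra.IsIntegral.isIntegral z
    obtain ⟨p, hp1, hp0⟩ := hz
    let ι : RatFunc ℂ →+* w.ring :=
      (algebraMap (RatFunc ℂ) F).codRestrict w.ring.toSubring fun x => hq x
    have h1 : IsIntegral w.ring z := by
      refine ⟨p.map ι, hp1.map ι, ?_⟩
      rw [Polynomial.eval₂_map]
      exact hp0
    obtain ⟨y, hy⟩ := IsIntegrallyClosed.isIntegral_iff.1 h1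
    rw [← hy]
    exact y.2

/-- values of functions at places above each other -/
private theorem at_bel_RatGen {K F : Type} [Field K] [Algebra ℂ K] [Field F] [Algebra ℂ F]
    {j : K →ₐ[ℂ] F} {w : Place ℂ F} {v : Place ℂ K}
    (h : w.ring.comap (j : K →+* F) = v.ring) (f : K) (c : ℂ) (hf : v.At f c) :
    w.At (j f) c := by
  unfold Place.At at hf ⊢
  rw [Place.vanishes_iff_or] at hf ⊢
  rw [← j.commutes c, ← map_sub, ← map_inv₀, map_eq_zero]
  rw [← h, ValuationSubring.mem_comap] at hf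
  exact hf

theorem div_of_galois {K : Type} [Field K] [Algebra ℂ K] (hK : IsCurve ℂ K) {W : Type}
    [AddCommGroup W] [Module ℂ W] (Ψ : Place ℂ K → W)
    (H : ∀ (F : Type) [Field F] [Algebra ℂ F] [Algebra (RatFunc ℂ) F]
      [IsScalarTower ℂ (RatFunc ℂ) F] [FiniteDimensional (RatFunc ℂ) F] [IsGalois (RatFunc ℂ) F]
      (j : K →ₐ[ℂ] F) (bel : Place ℂ F → Place ℂ K),
      (∀ w : Place ℂ F, w.ring.comap (j : K →+* F) = (bel w).ring) →
      ∀ (a b : ℂ) (v w : Place ℂ F),
        v.Vanishes (algebraMap (RatFunc ℂ) F (RatFunc.X - RatFunc.C a)) →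
        w.Vanishes (algebraMap (RatFunc ℂ) F (RatFunc.X - RatFunc.C b)) →
        ∑ τ : F ≃ₐ[RatFunc ℂ] F, (Ψ (bel (v.map (τ.restrictScalars ℂ))) -
          Ψ (bel (w.map (τ.restrictScalars ℂ)))) = 0)
    {f : K} (hf : f ≠ 0) : ((dv hK f).sum fun v a => (a : ℂ) • Ψ v) = 0 := by
  have hD : ∀ v, dv hK f v = ord v f := fun v => rfl
  by_cases hconst : ∃ c : ℂ, f = algebraMap ℂ K c
  · obtain ⟨c, rfl⟩ := hconst
    have hD0 : dv hK (algebraMap ℂ K c) = 0 := by
      ext v
      rw [hD, ord_const hK v c]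
      rfl
    rw [hD0, Finsupp.sum_zero_index]
  have hc0 : ∀ c : ℂ, f ≠ algebraMap ℂ K c := fun c h => hconst ⟨c, h⟩
  have hft : Transcendental ℂ f := transc_of_ne hK hc0
  have hf1 : f + 1 ≠ 0 := by
    intro h
    apply hc0 (-1)
    rw [map_neg, map_one]
    exact eq_neg_of_add_eq_zero_left h
  have hgt : Transcendental ℂ (f / (f + 1)) := by
    apply transc_of_ne hK
    intro a ha
    rw [div_eq_iff hf1] at ha
    by_cases ha1 : a = 1
    · rw [ha1, map_one, one_mul] at ha
      exact one_ne_zero (left_eq_add.1 ha)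
    · apply hc0 (a / (1 - a))
      have h1 : (1 - algebraMap ℂ K a) ≠ 0 := by
        intro h
        apply ha1
        apply (algebraMap ℂ K).injective
        rw [map_one]
        exact (sub_eq_zero.1 h).symm
      rw [map_div₀, map_sub, map_one, eq_div_iff h1]
      linear_combination ha
  set g : K := f / (f + 1) with hg
  obtain ⟨F, hfin, hgal, j, hj⟩ := DWG.exists_gal hK hgt
  have hXt : Transcendental ℂ (algebraMap (RatFunc ℂ) F RatFunc.X) := by
    rw [← hj]
    intro h
    exact hgt ((isAlgebraic_algHom_iff j j.toRingHom.injective).1 h)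
  obtain ⟨w₀, hw₀⟩ := exists_place hXt (0 : ℂ)
  obtain ⟨w₁, hw₁⟩ := exists_place hXt (1 : ℂ)
  have hw₀' : w₀.Vanishes (algebraMap (RatFunc ℂ) F (RatFunc.X - RatFunc.C (0 : ℂ))) := by
    rw [sub_C_RatGen]
    exact hw₀
  have hw₁' : w₁.Vanishes (algebraMap (RatFunc ℂ) F (RatFunc.X - RatFunc.C (1 : ℂ))) := by
    rw [sub_C_RatGen]
    exact hw₁
  choose bel hbel using exists_bel_RatGen (K := K) F j hj
  obtain ⟨N, hN, hcount⟩ := DWG.count hK F j hj
  have hgen : (∑ τ : F ≃ₐ[RatFunc ℂ] F,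
      (Ψ (bel (w₀.map (τ.restrictScalars ℂ))) -
        Ψ (bel (w₁.map (τ.restrictScalars ℂ))))) = 0 :=
    H F j bel hbel 0 1 w₀ w₁ hw₀' hw₁'
  have hsum : ∀ (T : Finset (Place ℂ K)) (w : Place ℂ F)
      (_ : ∀ τ : F ≃ₐ[RatFunc ℂ] F, bel (w.map (τ.restrictScalars ℂ)) ∈ T),
      (∑ τ : F ≃ₐ[RatFunc ℂ] F, Ψ (bel (w.map (τ.restrictScalars ℂ)))) =
      ∑ v ∈ T, ((Nat.card {τ : F ≃ₐ[RatFunc ℂ] F //
          (w.map (τ.restrictScalars ℂ)).ring.comap (j : K →+* F) = v.ring} : ℤ) : ℂ) •
        Ψ v := by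
    intro T w hT
    rw [← Finset.sum_fiberwise_of_maps_to (s := Finset.univ) (t := T)
      (g := fun τ : F ≃ₐ[RatFunc ℂ] F => bel (w.map (τ.restrictScalars ℂ)))
      (fun τ _ => hT τ)]
    refine Finset.sum_congr rfl fun v _ => ?_
    have h1 : ∀ τ ∈ Finset.univ.filter (fun τ : F ≃ₐ[RatFunc ℂ] F =>
        bel (w.map (τ.restrictScalars ℂ)) = v),
        Ψ (bel (w.map (τ.restrictScalars ℂ))) = Ψ v := by
      intro τ hτ
      rw [(Finset.mem_filter.1 hτ).2]
    rw [Finset.sum_congr rfl h1, Finset.sum_const]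
    have h2 : (Nat.card {τ : F ≃ₐ[RatFunc ℂ] F //
        (w.map (τ.restrictScalars ℂ)).ring.comap (j : K →+* F) = v.ring}) =
        (Finset.univ.filter (fun τ : F ≃ₐ[RatFunc ℂ] F =>
          bel (w.map (τ.restrictScalars ℂ)) = v)).card := by
      rw [Nat.card_eq_fintype_card, Fintype.card_subtype]
      congr 1
      ext τ
      simp only [Finset.mem_filter, Finset.mem_univ, true_and]
      rw [hbel, Place.ext_iff]
    rw [h2, Int.cast_natCast, Nat.cast_smul_eq_nsmul]
  set T : Finset (Place ℂ K) := (dv hK f).support ∪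
    (Finset.univ.image (fun τ : F ≃ₐ[RatFunc ℂ] F => bel (w₀.map (τ.restrictScalars ℂ))) ∪
      Finset.univ.image (fun τ : F ≃ₐ[RatFunc ℂ] F => bel (w₁.map (τ.restrictScalars ℂ))))
    with hTdef
  have hT0 : ∀ τ : F ≃ₐ[RatFunc ℂ] F, bel (w₀.map (τ.restrictScalars ℂ)) ∈ T := fun τ =>
    Finset.mem_union_right _ (Finset.mem_union_left _
      (Finset.mem_image_of_mem _ (Finset.mem_univ τ)))
  have hT1 : ∀ τ : F ≃ₐ[RatFunc ℂ] F, bel (w₁.map (τ.restrictScalars ℂ)) ∈ T := fun τ =>
    Finset.mem_union_right _ (Finset.mem_union_right _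
      (Finset.mem_image_of_mem _ (Finset.mem_univ τ)))
  rw [Finset.sum_sub_distrib, hsum T w₀ hT0, hsum T w₁ hT1, ← Finset.sum_sub_distrib] at hgen
  have hz : ((dv hK f).sum fun v a => (a : ℂ) • Ψ v) =
      ∑ v ∈ T, ((dv hK f v : ℤ) : ℂ) • Ψ v := by
    rw [Finsupp.sum_of_support_subset (dv hK f) (Finset.subset_union_left) _ (by simp)]
  rw [hz]
  have hNq : (N : ℂ) ≠ 0 := by exact_mod_cast hN.ne'
  have hfin2 : (∑ v ∈ T, ((dv hK f v : ℤ) : ℂ) • Ψ v) = (N : ℂ)⁻¹ •
      ∑ v ∈ T, ((((Nat.card {τ : F ≃ₐ[RatFunc ℂ] F //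
          (w₀.map (τ.restrictScalars ℂ)).ring.comap (j : K →+* F) = v.ring} : ℤ) : ℂ) •
        Ψ v) -
        (((Nat.card {τ : F ≃ₐ[RatFunc ℂ] F //
          (w₁.map (τ.restrictScalars ℂ)).ring.comap (j : K →+* F) = v.ring} : ℤ) : ℂ) •
        Ψ v)) := by
    rw [Finset.smul_sum]
    refine Finset.sum_congr rfl fun v _ => ?_
    have e0 := hcount 0 w₀ hw₀' v
    have e1 := hcount 1 w₁ hw₁' v
    rw [map_zero, sub_zero] at e0
    rw [map_one] at e1
    rw [e0, e1, ← sub_smul, smul_smul]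
    congr 1
    rw [hD, DWG.ord_split hK hft v, ← hg]
    push_cast
    field_simp
  rw [hfin2, hgen, smul_zero]


/-- values at places above each other -/
theorem isValue_bel {K F : Type} [Field K] [Algebra ℂ K] [Field F] [Algebra ℂ F] {J : Type}
    {j : K →ₐ[ℂ] F} {w : Place ℂ F} {v : Place ℂ K}
    (h : w.ring.comap (j : K →+* F) = v.ring) {x : J → K} {p : ℙ ℂ (J → ℂ)}
    (hx : DCI57.IsValue v x p) : DCI57.IsValue w (fun i => j (x i)) p := by
  obtain ⟨g, hg⟩ := hx
  refine ⟨j g, fun a => ?_⟩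
  have h1 := at_bel_RatGen h _ _ (hg a)
  rw [map_mul] at h1
  exact h1


end Pool.Agent.BBX
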