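import Pool.Agent.BBX.Sys

/-!
# Reduction to one slot, two slots, and the slots of the first kind

`𝒮.E c F p` is a sum over all families `κ`. Separate the sum over the `κ i` for one or two indices `i`
(`Equiv.piSplitAt`, or the bijection `(κ, h) ↦ (Function.update κ i h, κ i)`, `Finset.sum_comm`), or the sum
over the `κ i` for the indices `i` with `i.1` of the form `Sum.inl s`. The other factors `F` is evaluated at
are the points `x j = 𝒮.av j.1 (κ j) (p j)`.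
-/

set_option autoImplicit false

noncomputable section

namespace Pool.Agent.BBX

open Pool.Agent.BBM
open scoped Classical

private theorem Slot_mem {α : Type} {f : Fintype α} (x : α) : x ∈ @Finset.univ α f :=
  @Finset.mem_univ α f x

private theorem Slot_split {ι : Type} [Fintype ι] [DecidableEq ι] {K : ι → Type}
    [∀ i, Fintype (K i)] {W : Type} [AddCommGroup W] [Module ℂ W] (P : ι → Prop)
    [DecidablePred P] (w : ∀ i, K i → ℂ) (G : (∀ i, K i) → W) :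
    ∑ κ : (∀ i, K i), (∏ i, w i (κ i)) • G κ =
      ∑ κ₂ : (∀ i : {x // ¬ P x}, K i.1), (∏ i : {x // ¬ P x}, w i.1 (κ₂ i)) •
        ∑ κ₁ : (∀ i : {x // P x}, K i.1), (∏ i : {x // P x}, w i.1 (κ₁ i)) •
          G (fun j => if h : P j then κ₁ ⟨j, h⟩ else κ₂ ⟨j, h⟩) := by
  rw [← (Equiv.piEquivPiSubtypeProd P K).symm.sum_comp, Fintype.sum_prod_type,
    Finset.sum_comm]
  refine Finset.sum_congr rfl fun κ₂ _ => ?_
  rw [Finset.smul_sum]
  refine Finset.sum_congr rfl fun κ₁ _ => ?_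
  rw [smul_smul]
  have h1 : (Equiv.piEquivPiSubtypeProd P K).symm (κ₁, κ₂) =
      fun j => if h : P j then κ₁ ⟨j, h⟩ else κ₂ ⟨j, h⟩ := rfl
  rw [h1]
  congr 1
  rw [← Fintype.prod_subtype_mul_prod_subtype P, mul_comm]
  congr 1
  · exact Fintype.prod_congr _ _ fun x => congrArg (w x.1) (dif_neg x.2)
  · exact Fintype.prod_congr _ _ fun x => congrArg (w x.1) (dif_pos x.2)

section one

variable {S : Type} {𝒮 : Sys S} [Fintype S] {k : S → ℕ} {W : Type} [AddCommGroup W]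
  [Module ℂ W] {F : Pts 𝒮.P k → W}

private theorem Slot_E_split (c : ∀ i : Idx k, 𝒮.C i.1) (p : Pts 𝒮.P k) (P : Idx k → Prop)
    [DecidablePred P] :
    𝒮.E c F p = ∑ κ₂ : (∀ i : {x // ¬ P x}, 𝒮.K i.1.1),
      (∏ i : {x // ¬ P x}, 𝒮.wt i.1.1 (c i.1) (κ₂ i)) •
        ∑ κ₁ : (∀ i : {x // P x}, 𝒮.K i.1.1), (∏ i : {x // P x}, 𝒮.wt i.1.1 (c i.1) (κ₁ i)) •
          F (fun j => 𝒮.av j.1 (if h : P j then κ₁ ⟨j, h⟩ else κ₂ ⟨j, h⟩) (p j)) :=
  Slot_split P (fun j => 𝒮.wt j.1 (c j)) fun κ => F fun j => 𝒮.av j.1 (κ j) (p j)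

theorem E_slot_congr (c : ∀ i : Idx k, 𝒮.C i.1) (p : Pts 𝒮.P k) (i : Idx k) (q q' : 𝒮.P i.1)
    (a a' : ℂ)
    (h : ∀ x : Pts 𝒮.P k,
      a • ∑ κ : 𝒮.K i.1, 𝒮.wt i.1 (c i) κ • F (Function.update x i (𝒮.av i.1 κ q)) =
        a' • ∑ κ : 𝒮.K i.1, 𝒮.wt i.1 (c i) κ • F (Function.update x i (𝒮.av i.1 κ q'))) :
    a • 𝒮.E c F (Function.update p i q) = a' • 𝒮.E c F (Function.update p i q') := by
  have key : ∀ q : 𝒮.P i.1, 𝒮.E c F (Function.update p i q) =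
      ∑ κ₂ : (∀ j : {x // ¬ x = i}, 𝒮.K j.1.1), (∏ j : {x // ¬ x = i}, 𝒮.wt j.1.1 (c j.1) (κ₂ j)) •
        ∑ κ : 𝒮.K i.1, 𝒮.wt i.1 (c i) κ • F (Function.update (fun j : Idx k =>
          if h : j = i then p j else 𝒮.av j.1 (κ₂ ⟨j, h⟩) (p j)) i (𝒮.av i.1 κ q)) := by
    intro q
    refine (Slot_E_split c _ fun j => j = i).trans ?_
    refine Finset.sum_congr rfl fun κ₂ _ => ?_
    congr 1
    refine Finset.sum_bijective
      (fun κ : (∀ x : {x // x = i}, 𝒮.K x.1.1) => (κ ⟨i, rfl⟩ : 𝒮.K i.1)) ⟨?_, ?_⟩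
      (fun _ => iff_of_true (Slot_mem _) (Slot_mem _)) ?_
    · intro κ κ' hκ
      funext x
      obtain ⟨x, rfl⟩ := x
      exact hκ
    · intro u
      exact ⟨fun x => match x with | ⟨_, rfl⟩ => u, rfl⟩
    · intro κ _
      refine congrArg₂ (fun (z : ℂ) (v : W) => z • v) ?_ (congrArg F ?_)
      · refine Finset.prod_eq_single (⟨i, rfl⟩ : {x // x = i}) ?_
          fun h => absurd (Slot_mem _) h
        rintro ⟨x, rfl⟩ _ h1
        exact absurd rfl h1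
      funext j
      by_cases hj : j = i
      · subst hj
        rw [Function.update_self, Function.update_self]
        rw [dif_pos rfl]
      · rw [Function.update_of_ne hj, Function.update_of_ne hj, dif_neg hj, dif_neg hj]
  rw [key, key, Finset.smul_sum, Finset.smul_sum]
  refine Finset.sum_congr rfl fun κ₂ _ => ?_
  rw [smul_comm a, smul_comm a', h]

theorem E_slot2_congr (c : ∀ i : Idx k, 𝒮.C i.1) (p : Pts 𝒮.P k) {i j : Idx k} (hij : i ≠ j)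
    (q q' : 𝒮.P i.1) (r r' : 𝒮.P j.1) (a a' : ℂ)
    (h : ∀ x : Pts 𝒮.P k,
      a • ∑ κ : 𝒮.K i.1, ∑ κ' : 𝒮.K j.1, (𝒮.wt i.1 (c i) κ * 𝒮.wt j.1 (c j) κ') •
          F (Function.update (Function.update x i (𝒮.av i.1 κ q)) j (𝒮.av j.1 κ' r)) =
        a' • ∑ κ : 𝒮.K i.1, ∑ κ' : 𝒮.K j.1, (𝒮.wt i.1 (c i) κ * 𝒮.wt j.1 (c j) κ') •
          F (Function.update (Function.update x i (𝒮.av i.1 κ q')) j (𝒮.av j.1 κ' r'))) :
    a • 𝒮.E c F (Function.update (Function.update p i q) j r) =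
      a' • 𝒮.E c F (Function.update (Function.update p i q') j r') := by
  have key : ∀ (q : 𝒮.P i.1) (r : 𝒮.P j.1),
      𝒮.E c F (Function.update (Function.update p i q) j r) =
      ∑ κ₂ : (∀ l : {x // ¬ (x = i ∨ x = j)}, 𝒮.K l.1.1),
        (∏ l : {x // ¬ (x = i ∨ x = j)}, 𝒮.wt l.1.1 (c l.1) (κ₂ l)) •
        ∑ κ : 𝒮.K i.1, ∑ κ' : 𝒮.K j.1, (𝒮.wt i.1 (c i) κ * 𝒮.wt j.1 (c j) κ') •
          F (Function.update (Function.update (fun l : Idx k =>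
            if h : (l = i ∨ l = j) then p l else 𝒮.av l.1 (κ₂ ⟨l, h⟩) (p l)) i
              (𝒮.av i.1 κ q)) j (𝒮.av j.1 κ' r)) := by
    intro q r
    refine (Slot_E_split c _ fun l => l = i ∨ l = j).trans ?_
    refine Finset.sum_congr rfl fun κ₂ _ => ?_
    congr 1
    rw [← Fintype.sum_prod_type' fun (κ : 𝒮.K i.1) (κ' : 𝒮.K j.1) =>
      (𝒮.wt i.1 (c i) κ * 𝒮.wt j.1 (c j) κ') •
          F (Function.update (Function.update (fun l : Idx k =>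
            if h : (l = i ∨ l = j) then p l else 𝒮.av l.1 (κ₂ ⟨l, h⟩) (p l)) i
              (𝒮.av i.1 κ q)) j (𝒮.av j.1 κ' r))]
    refine Fintype.sum_bijective
      (fun κ : (∀ x : {x // x = i ∨ x = j}, 𝒮.K x.1.1) =>
        ((κ ⟨i, Or.inl rfl⟩, κ ⟨j, Or.inr rfl⟩) : 𝒮.K i.1 × 𝒮.K j.1)) ⟨?_, ?_⟩ _ _ ?_
    · intro κ κ' hκ
      have h1 : κ ⟨i, Or.inl rfl⟩ = κ' ⟨i, Or.inl rfl⟩ := congrArg Prod.fst hκ
      have h2 : κ ⟨j, Or.inr rfl⟩ = κ' ⟨j, Or.inr rfl⟩ := congrArg Prod.snd hκ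
      funext x
      obtain ⟨x, rfl | rfl⟩ := x
      · exact h1
      · exact h2
    · rintro ⟨u, v⟩
      have g : ∀ x : {x // x = i ∨ x = j}, ∃ w : 𝒮.K x.1.1,
          (∀ h : i = x.1, w = cast (congrArg (fun l : Idx k => 𝒮.K l.1) h) u) ∧
          (∀ h : j = x.1, w = cast (congrArg (fun l : Idx k => 𝒮.K l.1) h) v) := by
        rintro ⟨x, rfl | rfl⟩
        · exact ⟨u, fun _ => rfl, fun h => absurd h.symm hij⟩
        · exact ⟨v, fun h => absurd h hij, fun _ => rfl⟩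
      choose κ hκ using g
      exact ⟨κ, Prod.ext ((hκ ⟨i, Or.inl rfl⟩).1 rfl) ((hκ ⟨j, Or.inr rfl⟩).2 rfl)⟩
    · intro κ
      have hprod : (∏ x : {x // x = i ∨ x = j}, 𝒮.wt x.1.1 (c x.1) (κ x)) =
          𝒮.wt i.1 (c i) (κ ⟨i, Or.inl rfl⟩) * 𝒮.wt j.1 (c j) (κ ⟨j, Or.inr rfl⟩) := by
        refine Fintype.prod_eq_mul (⟨i, Or.inl rfl⟩ : {x // x = i ∨ x = j})
          ⟨j, Or.inr rfl⟩ (fun h => hij (congrArg Subtype.val h)) ?_
        rintro ⟨x, rfl | rfl⟩ ⟨h1, h2⟩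
        · exact absurd rfl h1
        · exact absurd rfl h2
      rw [hprod]
      congr 2
      funext l
      by_cases hl : l = j
      · subst hl
        rw [Function.update_self, Function.update_self]
        rw [dif_pos (Or.inr rfl)]
      · rw [Function.update_of_ne hl, Function.update_of_ne hl]
        by_cases hl' : l = i
        · subst hl'
          rw [Function.update_self, Function.update_self]
          rw [dif_pos (Or.inl rfl)]
        · rw [Function.update_of_ne hl', Function.update_of_ne hl']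
          rw [dif_neg (not_or.2 ⟨hl', hl⟩), dif_neg (not_or.2 ⟨hl', hl⟩)]
  rw [key, key, Finset.smul_sum, Finset.smul_sum]
  refine Finset.sum_congr rfl fun κ₂ _ => ?_
  rw [smul_comm a, smul_comm a', h]

end one

section part

variable {S₁ S' : Type} {𝒮 : Sys (S₁ ⊕ S')} [Fintype S₁] [Fintype S'] {k : S₁ ⊕ S' → ℕ}
  {W : Type} [AddCommGroup W] [Module ℂ W] {F : Pts 𝒮.P k → W}

/-- replace the components of `x` of the first kind by `y` -/
def insL {P : S₁ ⊕ S' → Type} (y : ∀ i : Idx (fun s => k (Sum.inl s)), P (Sum.inl i.1))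
    (x : Pts P k) : Pts P k
  | ⟨.inl s, l⟩ => y ⟨s, l⟩
  | ⟨.inr s, l⟩ => x ⟨.inr s, l⟩

theorem E_inl_zero (c : ∀ i : Idx k, 𝒮.C i.1) (p : Pts 𝒮.P k)
    (h : ∀ x : Pts 𝒮.P k, ∑ κ : (∀ i : Idx (fun s => k (Sum.inl s)), 𝒮.K (Sum.inl i.1)),
      (∏ i : Idx (fun s => k (Sum.inl s)), 𝒮.wt (Sum.inl i.1) (c ⟨Sum.inl i.1, i.2⟩) (κ i)) •
        F (insL (fun i => 𝒮.av (Sum.inl i.1) (κ i) (p ⟨Sum.inl i.1, i.2⟩)) x) = 0) :
    𝒮.E c F p = 0 := by
  rw [Slot_E_split c p fun j : Idx k => ∃ s, j.1 = Sum.inl s]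
  refine Finset.sum_eq_zero fun κ₂ _ => ?_
  have key := h fun j => if hj : (∃ s, j.1 = Sum.inl s) then p j else
    𝒮.av j.1 (κ₂ ⟨j, hj⟩) (p j)
  rw [← smul_zero (∏ j : {x : Idx k // ¬ ∃ s, x.1 = Sum.inl s}, 𝒮.wt j.1.1 (c j.1) (κ₂ j)),
    ← key]
  congr 1
  refine Finset.sum_bijective
    (fun (κ : (∀ x : {x : Idx k // ∃ s, x.1 = Sum.inl s}, 𝒮.K x.1.1))
      (i : Idx (fun s => k (Sum.inl s))) => κ ⟨⟨Sum.inl i.1, i.2⟩, ⟨i.1, rfl⟩⟩)
    ⟨?_, ?_⟩ (fun _ => iff_of_true (Slot_mem _) (Slot_mem _)) ?_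
  · intro κ κ' hκ
    funext x
    obtain ⟨⟨s | s, l⟩, ⟨s', hs⟩⟩ := x
    · exact congrFun hκ ⟨s, l⟩
    · exact absurd hs Sum.inr_ne_inl
  · intro y
    refine ⟨fun x => match x with
      | ⟨⟨.inl s, l⟩, _⟩ => y ⟨s, l⟩
      | ⟨⟨.inr s, l⟩, hx⟩ => absurd hx (fun ⟨_, h⟩ => Sum.inr_ne_inl h), ?_⟩
    rfl
  · intro κ _
    congr 1
    · refine (Finset.prod_bijective
        (fun i : Idx (fun s => k (Sum.inl s)) =>
          (⟨⟨Sum.inl i.1, i.2⟩, ⟨i.1, rfl⟩⟩ : {x : Idx k // ∃ s, x.1 = Sum.inl s}))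
        ⟨?_, ?_⟩ (fun _ => iff_of_true (Slot_mem _) (Slot_mem _))
        fun i _ => rfl).symm
      · rintro ⟨s, l⟩ ⟨s', l'⟩ hh
        have h1 := congrArg Subtype.val hh
        simp only [Sigma.mk.injEq, Sum.inl.injEq] at h1
        obtain ⟨rfl, h2⟩ := h1
        rw [eq_of_heq h2]
      · rintro ⟨⟨s | s, l⟩, ⟨s', hs⟩⟩
        · exact ⟨⟨s, l⟩, rfl⟩
        · exact absurd hs Sum.inr_ne_inl
    · congr 1
      funext j
      obtain ⟨s | s, l⟩ := j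
      · rw [dif_pos ⟨s, rfl⟩]
        rfl
      · have hn : ¬ ∃ s', (Sum.inr s : S₁ ⊕ S') = Sum.inl s' := fun ⟨_, h⟩ => Sum.inr_ne_inl h
        rw [dif_neg hn]
        change _ = dite _ _ _
        rw [dif_neg hn]

end part

end Pool.Agent.BBX
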