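import Pool.Agent.BBM.Defs
import Pool.Agent.BBP.Defs
import Pool.Agent.DWG.Push

/-!
# Zero-cycles on products of varieties of three kinds: definitions

We consider a finite family of complex projective varieties `Y s` of the following three kinds.

1. The smooth complete intersections `∑ j, c i j * x j ^ d = 0`, `i < r`, of `r` diagonal hypersurfaces of
   degree `d` in the projective space with `r d` homogeneous coordinates, where all `r × r` minors of
   the matrix `c` are different from zero. They are Calabi-Yau varieties of dimension `r d - r - 1`: the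
   canonical bundle is trivial. For `d = 2` they form families of dimension `(r - 1) ^ 2`, and the
   quotient by the even changes of signs of the coordinates is the double cover of the projective
   space of dimension `r - 1` branched along `2 r` hyperplanes.
2. The hypersurfaces `det (A - diag (w i ^ M i)) = 0` in the product of `l` projective lines with the
   coordinates `w i`, where `A` is a matrix such that for one `i` all entries of the row `i` and the column
   `i` are different from zero. They are, birationally, the coverings of the projective space of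
   dimension `l - 1` given by `w i ^ M i = a i / x i`, where the `a i` are the linear forms with the
   coefficients `A i j`. They are irreducible, but they may be singular. They form families of
   dimension `(l - 1) ^ 2` (matrices up to multiplication with diagonal matrices from both sides). The
   hypersurfaces `∏ i, (1 - w i ^ M i) = λ`, `λ ≠ 0, 1`, are special cases: replace `w i` by `1 / w i` for
   `i > 0`; the row `0` of `A` is `(1 - λ, -λ, …, -λ)`, and the row `i > 0` is
   `(1, …, 1, 0, …, 0)` with `i + 1` entries `1`.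
3. The Dwork quintic threefolds `∑ i, x i ^ 5 = 5 t ∏ i, x i`.

For `m : S → ℕ` (`S` is the set of the indices) let `Y ^ m` be the product of the powers `(Y s) ^ (m s)`.
We define rational equivalence of zero-cycles on `Y ^ m`, automorphisms of the `Y s`, and the action of
correspondences on the holomorphic forms. Products, morphisms and the filtration are defined in
`Pool.Agent.BBM.Defs`, points of curves (`Place`) in `Pool.Agent.ZCyc.Defs`, and the values of a morphism
from a curve to the projective space (`IsValue`) in `Pool.Agent.DCI57.Defs`.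
-/

set_option autoImplicit false

noncomputable section

namespace Pool.Agent.BBX

open Pool.Agent.ZCyc Pool.Agent.BBM
open scoped LinearAlgebra.Projectivization

/-- The data of a family of varieties of the three kinds, with the index set `S₁ ⊕ S₂ ⊕ S₃`. -/
structure Fly (S₁ S₂ S₃ : Type) where
  /-- kind 1: the degrees of the equations -/
  d : S₁ → ℕ
  /-- kind 1: the numbers of equations -/
  r : S₁ → ℕ
  /-- kind 1: the coefficients of the equations -/
  c : ∀ s, Fin (r s) → Fin (r s * d s) → ℂ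
  /-- kind 2: the numbers of coordinates -/
  l : S₂ → ℕ
  /-- kind 2: the exponents -/
  M : ∀ s, Fin (l s) → ℕ
  /-- kind 2: the matrices -/
  A : ∀ s, Matrix (Fin (l s)) (Fin (l s)) ℂ
  /-- kind 3: the parameters -/
  t : S₃ → ℂ

variable {S₁ S₂ S₃ : Type} (Y : Fly S₁ S₂ S₃)

/-- The conditions. -/
structure Fly.Ok : Prop where
  /-- kind 1: the degrees and dimensions -/
  dim₁ : ∀ s, 2 ≤ Y.d s ∧ Y.r s + 2 ≤ Y.r s * Y.d s
  /-- kind 1: all maximal minors of the matrix of the coefficients are different from zero -/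
  smooth : ∀ s, ∀ f : Fin (Y.r s) → Fin (Y.r s * Y.d s), Function.Injective f →
    (Matrix.of fun i j => Y.c s i (f j)).det ≠ 0
  /-- kind 2: the dimensions are positive -/
  dim₂ : ∀ s, 2 ≤ Y.l s
  /-- kind 2: the exponents -/
  exp : ∀ s i, 2 ≤ Y.M s i
  /-- kind 2: a row and the column with the same number without zeros -/
  row : ∀ s, ∃ i, ∀ j, Y.A s i j ≠ 0 ∧ Y.A s j i ≠ 0

/-- The variety `Y s` is a subset of a product of projective spaces; these are their numbers. -/
def Fly.E : S₁ ⊕ S₂ ⊕ S₃ → Type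
  | .inl _ => Unit
  | .inr (.inl s) => Fin (Y.l s)
  | .inr (.inr _) => Unit

/-- The numbers of the homogeneous coordinates of the projective spaces. -/
def Fly.J : (s : S₁ ⊕ S₂ ⊕ S₃) → Y.E s → Type
  | .inl s => fun _ => Fin (Y.r s * Y.d s)
  | .inr (.inl _) => fun _ => Fin 2
  | .inr (.inr _) => fun _ => Fin 5

/-- The product of projective spaces. -/
abbrev Fly.Amb (s : S₁ ⊕ S₂ ⊕ S₃) : Type := ∀ e : Y.E s, ℙ ℂ (Y.J s e → ℂ)

/-- The variety `Y s`, as a subset of the product of projective spaces. -/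
def Fly.X : (s : S₁ ⊕ S₂ ⊕ S₃) → Set (Y.Amb s)
  | .inl s => {p : Unit → ℙ ℂ (Fin (Y.r s * Y.d s) → ℂ) |
      ∀ i, ∑ j, Y.c s i j * (p ()).rep j ^ Y.d s = 0}
  | .inr (.inl s) => {p : Fin (Y.l s) → ℙ ℂ (Fin 2 → ℂ) |
      (Matrix.of fun i j => (p i).rep 1 ^ Y.M s i * Y.A s i j -
        if i = j then (p i).rep 0 ^ Y.M s i else 0).det = 0}
  | .inr (.inr s) => {p : Unit → ℙ ℂ (Fin 5 → ℂ) |
      ∑ i, (p ()).rep i ^ 5 = 5 * Y.t s * ∏ i, (p ()).rep i}

/-- The points of `Y s`. -/
def Fly.P (s : S₁ ⊕ S₂ ⊕ S₃) : Type := {p : Y.Amb s // p ∈ Y.X s}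

/-- The dimension of `Y s`. -/
def Fly.n : S₁ ⊕ S₂ ⊕ S₃ → ℕ
  | .inl s => Y.r s * Y.d s - Y.r s - 1
  | .inr (.inl s) => Y.l s - 1
  | .inr (.inr _) => 3

/-- The automorphisms which we consider: kind 1: `x ↦ (ζ j * x j)` with `ζ j ^ d = 1`; kind 2:
`w ↦ (h i * w i)` with `h i ^ M i = 1`; kind 3: `x ↦ (h i * x (π i))` with `h i ^ 5 = 1`, `∏ i, h i = 1`
and a permutation `π`. -/
def Fly.G : S₁ ⊕ S₂ ⊕ S₃ → Type
  | .inl s => Fin (Y.r s * Y.d s) → rootsOfUnity (Y.d s) ℂ
  | .inr (.inl s) => ∀ i, rootsOfUnity (Y.M s i) ℂ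
  | .inr (.inr _) => DWK.Mon ℂ

/-- The action of the automorphisms on the product of projective spaces. -/
def Fly.ap : (s : S₁ ⊕ S₂ ⊕ S₃) → Y.G s → Y.Amb s → Y.Amb s
  | .inl s => fun (ζ : Fin (Y.r s * Y.d s) → rootsOfUnity (Y.d s) ℂ)
      (p : Unit → ℙ ℂ (Fin (Y.r s * Y.d s) → ℂ)) => fun e => BBP.mul ζ (p e)
  | .inr (.inl s) => fun (h : ∀ i, rootsOfUnity (Y.M s i) ℂ)
      (p : Fin (Y.l s) → ℙ ℂ (Fin 2 → ℂ)) => fun i => BBP.mul ![h i, 1] (p i)
  | .inr (.inr _) => fun (g : DWK.Mon ℂ) (p : Unit → ℙ ℂ (Fin 5 → ℂ)) =>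
      fun e => DWG.actP g (p e)

private theorem mul_rep {d N : ℕ} (ζ : Fin N → rootsOfUnity d ℂ) (p : ℙ ℂ (Fin N → ℂ)) :
    ∃ a : ℂ, ∀ j, (BBP.mul ζ p).rep j = a * (((ζ j : ℂˣ) : ℂ) * p.rep j) := by
  obtain ⟨a, ha⟩ := Projectivization.exists_smul_eq_mk_rep ℂ
    (fun j => ((ζ j : ℂˣ) : ℂ) * p.rep j) (BBP.mul_ne ζ p)
  exact ⟨(a : ℂ), fun j => (congrFun ha j).symm⟩

private theorem root_pow {d : ℕ} (h : rootsOfUnity d ℂ) : ((h : ℂˣ) : ℂ) ^ d = 1 := by
  have h1 := congrArg Units.val ((mem_rootsOfUnity d (h : ℂˣ)).1 h.2)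
  simpa using h1

private theorem mem_two {l : ℕ} (A : Matrix (Fin l) (Fin l) ℂ) (M : Fin l → ℕ)
    (h : ∀ i, rootsOfUnity (M i) ℂ) (p : Fin l → ℙ ℂ (Fin 2 → ℂ))
    (hp : (Matrix.of fun i j => (p i).rep 1 ^ M i * A i j -
      if i = j then (p i).rep 0 ^ M i else 0).det = 0) :
    (Matrix.of fun i j => (BBP.mul ![h i, 1] (p i)).rep 1 ^ M i * A i j -
      if i = j then (BBP.mul ![h i, 1] (p i)).rep 0 ^ M i else 0).det = 0 := by
  choose a ha using fun i => mul_rep ![h i, 1] (p i)
  have h1 : (Matrix.of fun i j => (BBP.mul ![h i, 1] (p i)).rep 1 ^ M i * A i j -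
      if i = j then (BBP.mul ![h i, 1] (p i)).rep 0 ^ M i else 0) =
      Matrix.of fun i j => a i ^ M i * (Matrix.of fun i j => (p i).rep 1 ^ M i * A i j -
        if i = j then (p i).rep 0 ^ M i else 0) i j := by
    ext i j
    have h2 : (BBP.mul ![h i, 1] (p i)).rep 1 = a i * (p i).rep 1 := by
      rw [ha]
      simp
    have h3 : (BBP.mul ![h i, 1] (p i)).rep 0 ^ M i = a i ^ M i * (p i).rep 0 ^ M i := by
      rw [ha, mul_pow, mul_pow]
      have h4 : (((![h i, 1] : Fin 2 → rootsOfUnity (M i) ℂ) 0 : ℂˣ) : ℂ) ^ M i = 1 :=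
        root_pow (h i)
      rw [h4, one_mul]
    simp only [Matrix.of_apply]
    rw [h2, h3]
    split_ifs
    · rw [mul_pow]
      ring
    · rw [mul_pow]
      ring
  rw [h1, Matrix.det_mul_column, hp, mul_zero]

theorem Fly.ap_mem : ∀ (s : S₁ ⊕ S₂ ⊕ S₃) (g : Y.G s) (p : Y.Amb s), p ∈ Y.X s → Y.ap s g p ∈ Y.X s
  | .inl s, g, p, hp => BBP.mul_mem (Y.c s) g (p := p ()) hp
  | .inr (.inl s), g, p, hp => mem_two (Y.A s) (Y.M s) g p hp
  | .inr (.inr s), g, p, hp => by
    have h0 : ∀ p : ℙ ℂ (Fin 5 → ℂ), MvPolynomial.aeval p.rep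
        (DWK.dwork (Y.t s) : MvPolynomial (Fin 5) ℂ) =
        ∑ i, p.rep i ^ 5 - 5 * Y.t s * ∏ i, p.rep i := by
      intro p
      unfold DWK.dwork
      rw [map_sub, map_sum, map_mul, map_prod, MvPolynomial.aeval_C]
      simp only [map_pow, MvPolynomial.aeval_X]
      rfl
    have h1 : MvPolynomial.aeval (Projectivization.rep (K := ℂ) (V := Fin 5 → ℂ) (p ()))
        (DWK.dwork (Y.t s) : MvPolynomial (Fin 5) ℂ) = 0 := by
      rw [h0]
      exact sub_eq_zero.2 hp
    have h2 := DWG.aeval_actP (k := ℂ) g h1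
    rw [h0] at h2
    exact sub_eq_zero.1 h2

/-- The action of the automorphisms on the points of `Y s`. -/
def Fly.act (s : S₁ ⊕ S₂ ⊕ S₃) (g : Y.G s) (p : Y.P s) : Y.P s :=
  ⟨Y.ap s g p.1, Y.ap_mem s g p.1 p.2⟩

/-- The zero-cycles on `Y ^ m` (with rational coefficients) which are rationally equivalent to zero.
They are generated by the cycles `φ_* (π^* a - π^* b)`, for all finite Galois coverings `π : D → ℙ¹` of
smooth projective curves, given by extensions `F` of `ℂ(t)`, all points `a` and `b` (`≠ ∞`) of `ℙ¹`, and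
all morphisms `φ` from `D` to `Y ^ m`, whose components have the homogeneous coordinates `x i e`. Here
`π^* a` is the sum of the points `τ v`, for all `τ` in the Galois group, where `v` is a point of `D`
above `a`. (Every function on a curve is dominated by a Galois covering, so this is rational
equivalence with rational coefficients.) -/
def Fly.rat (m : S₁ ⊕ S₂ ⊕ S₃ → ℕ) : Submodule ℚ (Pts Y.P m →₀ ℚ) :=
  Submodule.span ℚ {z | ∃ (F : Type) (_ : Field F) (_ : Algebra ℂ F) (_ : Algebra (RatFunc ℂ) F)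
    (_ : IsScalarTower ℂ (RatFunc ℂ) F) (_ : FiniteDimensional (RatFunc ℂ) F)
    (_ : IsGalois (RatFunc ℂ) F) (x : ∀ (i : Idx m) (e : Y.E i.1), Y.J i.1 e → F)
    (φ : Place ℂ F → Pts Y.P m) (_ : ∀ v i e, DCI57.IsValue v (x i e) ((φ v i).1 e)) (a b : ℂ)
    (v w : Place ℂ F)
    (_ : v.Vanishes (algebraMap (RatFunc ℂ) F (RatFunc.X - RatFunc.C a)))
    (_ : w.Vanishes (algebraMap (RatFunc ℂ) F (RatFunc.X - RatFunc.C b))),
    z = ∑ τ : F ≃ₐ[RatFunc ℂ] F, (Finsupp.single (φ (v.map (τ.restrictScalars ℂ))) 1 -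
      Finsupp.single (φ (w.map (τ.restrictScalars ℂ))) 1)}

/-! ### Holomorphic forms -/

/-- A basis of the holomorphic forms of the highest degree on `Y s` (sections of the dualizing sheaf):
one form for the kinds 1 and 3, and for kind 2 the forms
`ω_a = ∏ w_i ^ (a i - 1) ⋀ dw_i / d(equation)` (residues) with `0 < a i < M i`. If `Y s` has canonical
singularities then these are the forms on a resolution. -/
def Fly.Form : S₁ ⊕ S₂ ⊕ S₃ → Type
  | .inl _ => Unit
  | .inr (.inl s) => {a : Fin (Y.l s) → ℕ // ∀ i, 0 < a i ∧ a i < Y.M s i}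
  | .inr (.inr _) => Unit

/-- The number by which an automorphism multiplies the form: `∏ ζ j` for kind 1, `∏ h i ^ a i` for
kind 2, the sign of the permutation for kind 3. -/
def Fly.om : (s : S₁ ⊕ S₂ ⊕ S₃) → Y.Form s → Y.G s → ℂ
  | .inl s => fun _ (ζ : Fin (Y.r s * Y.d s) → rootsOfUnity (Y.d s) ℂ) =>
      ∏ j, ((ζ j : ℂˣ) : ℂ)
  | .inr (.inl s) => fun (a : {a : Fin (Y.l s) → ℕ // ∀ i, 0 < a i ∧ a i < Y.M s i})
      (h : ∀ i, rootsOfUnity (Y.M s i) ℂ) => ∏ i, ((h i : ℂˣ) : ℂ) ^ a.1 i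
  | .inr (.inr _) => fun _ (g : DWK.Mon ℂ) => ((Equiv.Perm.sign g.π : ℤ) : ℂ)

/-- The forms of degree `ν` on `Y ^ m'` have as a basis the products of the forms `b` on the factors given
by increasing sequences `J s` of `k s` factors of `(Y s) ^ (m' s)`, for all `k : S → ℕ` with
`∑ n s * k s = ν`, and likewise for `Y ^ m`. This is the coefficient of the form `(I, b')` in the pull-back
of the form `(J, b)` by `f`: if the component `J s x` of `f` is the automorphism `g ⟨s, x⟩` of the factor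
`I s (τ s x)`, for all `s` and `x`, and `b' ∘ τ = b`, then it is the product of the numbers by which the
`g ⟨s, x⟩` multiply the forms `b ⟨s, x⟩` and of the sign which comes from the permutation of forms of
degree `n s`. Otherwise it is zero. -/
def Fly.coef [Fintype S₁] [Fintype S₂] [Fintype S₃] {m m' k : S₁ ⊕ S₂ ⊕ S₃ → ℕ}
    (f : Mor Y.P Y.G m m') (I : ∀ s, Fin (k s) ↪o Fin (m s)) (J : ∀ s, Fin (k s) ↪o Fin (m' s))
    (b b' : ∀ i : Idx k, Y.Form i.1) : ℂ := by
  classical
  exact if h : ∃ g : (∀ s, Equiv.Perm (Fin (k s))) × (∀ i : Idx k, Y.G i.1),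
      Induces f I J g.1 g.2 ∧ ∀ i : Idx k, b' ⟨i.1, g.1 i.1 i.2⟩ = b i then
    (∏ s, (((Equiv.Perm.sign (h.choose.1 s) : ℤˣ) : ℤ) : ℂ) ^ Y.n s) *
      ∏ i : Idx k, Y.om i.1 (b i) (h.choose.2 i) else 0

/-- The correspondence `γ` from `Y ^ m` to `Y ^ m'` acts as zero on the holomorphic `ν`-forms. -/
def Fly.KillsForms [Fintype S₁] [Fintype S₂] [Fintype S₃] {m m' : S₁ ⊕ S₂ ⊕ S₃ → ℕ}
    (γ : Mor Y.P Y.G m m' →₀ ℚ) (ν : ℕ) : Prop :=
  ∀ k : S₁ ⊕ S₂ ⊕ S₃ → ℕ, ν = ∑ s, Y.n s * k s → ∀ (I : ∀ s, Fin (k s) ↪o Fin (m s))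
    (J : ∀ s, Fin (k s) ↪o Fin (m' s)) (b b' : ∀ i : Idx k, Y.Form i.1),
      ∑ f ∈ γ.support, (γ f : ℂ) * Y.coef f I J b b' = 0

end Pool.Agent.BBX
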