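import Pool.Agent.BBX.Inst
import Pool.Agent.BBP.Basic

/-!
# The simple laws

`psi` is the additive character of `ZMod d` with `psi 1 = zeta d`, and `rt κ` is the root of unity
`zeta d ^ κ.val = psi κ`; every root of unity is of this form. `pr` is the projection to the part
with the character `c`.
-/

set_option autoImplicit false

noncomputable section

namespace Pool.Agent.BBX

open Pool.Agent.ZCyc Pool.Agent.BBM
open Pool.Agent.GBB (zeta psi)
open scoped LinearAlgebra.Projectivization Classical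

variable {S₁ S₂ S₃ : Type} (Y : Fly S₁ S₂ S₃) [Fintype S₁] [Fintype S₂] [∀ s, NeZero (Y.d s)]
  [∀ s i, NeZero (Y.M s i)]

theorem L_pos : 0 < Y.L := by
  have h1 : 0 < ∏ s, Y.d s := Finset.prod_pos fun s _ => Nat.pos_of_ne_zero (NeZero.ne _)
  have h2 : 0 < ∏ s, ∏ i, Y.M s i := Finset.prod_pos fun s _ => Finset.prod_pos fun i _ =>
    Nat.pos_of_ne_zero (NeZero.ne _)
  exact Nat.mul_pos (Nat.mul_pos (by norm_num) h1) h2

private theorem mul_fix {d N : ℕ} (ζ : Fin N → rootsOfUnity d ℂ) (h : ∀ j, ζ j = 1)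
    (p : ℙ ℂ (Fin N → ℂ)) : BBP.mul ζ p = p := by
  unfold BBP.mul
  conv_rhs => rw [← Projectivization.mk_rep p]
  congr 1
  funext j
  rw [h]
  simp

private theorem rt_zero {d : ℕ} [NeZero d] : (BBP.rt (0 : ZMod d)) = 1 := by
  have h1 := congrFun (BBP.rtv_zero (d := d) (N := 1)) 0
  exact h1

private theorem rt_add {d : ℕ} [NeZero d] (a b : ZMod d) :
    BBP.rt (a + b) = BBP.rt a * BBP.rt b := by
  have h1 := congrFun (BBP.rtv_add (d := d) (N := 1) (fun _ => a) (fun _ => b)) 0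
  exact h1

omit [Fintype S₁] [Fintype S₂] in
theorem av_e : ∀ (s : S₁ ⊕ S₂ ⊕ S₃) (p : Y.P s), Y.av s (Y.e s) p = p
  | .inl s, p => Subtype.ext (funext fun e => mul_fix _ (fun _ => rt_zero) _)
  | .inr (.inl s), p => Subtype.ext (funext fun i => mul_fix _ (fun j => by
      fin_cases j
      · exact rt_zero
      · rfl) _)
  | .inr (.inr s), p => by
    have h1 : ∀ q : Y.P (.inr (.inr s)), (if (true : Bool) then p else q) = p :=
      fun _ => if_pos rfl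
    exact h1 ⟨fun _ => o5, o5_mem (Y.t s)⟩

private theorem orth {d : ℕ} [NeZero d] (κ : ZMod d) :
    ∑ c : ZMod d, (d : ℂ)⁻¹ * psi (-(c * κ)) = if κ = 0 then 1 else 0 := by
  rw [← Finset.mul_sum]
  by_cases h : κ = 0
  · rw [if_pos h, h]
    have h1 : ∀ c : ZMod d, psi (-(c * (0 : ZMod d))) = 1 := by
      intro c
      rw [mul_zero, neg_zero, GBB.psi_zero]
    rw [Finset.sum_congr rfl fun c _ => h1 c, Finset.sum_const, Finset.card_univ, ZMod.card,
      nsmul_eq_mul, mul_one]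
    exact inv_mul_cancel₀ (Nat.cast_ne_zero.2 (NeZero.ne d))
  · rw [if_neg h]
    have h1 : ∀ c : ZMod d, psi (-(c * κ)) = psi ((-κ) * c) := by
      intro c
      congr 1
      ring
    rw [Finset.sum_congr rfl fun c _ => h1 c, GBB.sum_psi_mul _ (neg_ne_zero.2 h), mul_zero]

private theorem orth_pi {ι : Type} [Fintype ι] [DecidableEq ι] {d : ι → ℕ} [∀ i, NeZero (d i)]
    (κ : ∀ i, ZMod (d i)) :
    ((κ = fun _ => 0) →
      ∑ c : (∀ i, ZMod (d i)), ∏ i, ((d i : ℂ)⁻¹ * psi (-(c i * κ i))) = 1) ∧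
    (κ ≠ (fun _ => 0) →
      ∑ c : (∀ i, ZMod (d i)), ∏ i, ((d i : ℂ)⁻¹ * psi (-(c i * κ i))) = 0) := by
  have h2 := Finset.prod_univ_sum (fun i : ι => (Finset.univ : Finset (ZMod (d i))))
    fun i c => ((d i : ℂ)⁻¹ * psi (-(c * κ i)))
  rw [Fintype.piFinset_univ] at h2
  rw [← h2]
  simp only [orth]
  constructor
  · intro h
    refine Finset.prod_eq_one fun i _ => ?_
    rw [h, if_pos rfl]
  · intro h
    obtain ⟨i, hi⟩ := Function.ne_iff.1 h
    exact Finset.prod_eq_zero (Finset.mem_univ i) (if_neg hi)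

omit [Fintype S₁] [Fintype S₂] in
theorem sum_wt (s : S₁ ⊕ S₂ ⊕ S₃) (κ : Y.K s) :
    ∑ c, Y.wt s c κ = if κ = Y.e s then 1 else 0 := by
  have key : (κ = Y.e s → ∑ c, Y.wt s c κ = 1) ∧ (κ ≠ Y.e s → ∑ c, Y.wt s c κ = 0) := by
    rcases s with s | s | s
    · exact orth_pi (d := fun _ : Fin (Y.r s * Y.d s) => Y.d s) κ
    · exact orth_pi (d := Y.M s) κ
    · have h1 : ∑ c : Y.K (.inr (.inr s)), Y.wt (.inr (.inr s)) c κ =
          Y.wt (.inr (.inr s)) true κ + Y.wt (.inr (.inr s)) false κ := Fintype.sum_bool _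
      rw [h1]
      have h0 : ∀ κ : Bool, κ = true ∨ κ = false := by decide
      have h2 : κ = true ∨ κ = false := h0 κ
      constructor
      · intro h
        rw [h]
        change (1 : ℂ) + 0 = 1
        rw [add_zero]
      · intro h
        rcases h2 with h3 | h3
        · exact absurd h3 h
        · rw [h3]
          change (-1 : ℂ) + 1 = 0
          ring
  by_cases h : κ = Y.e s
  · rw [if_pos h]
    exact key.1 h
  · rw [if_neg h]
    exact key.2 h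

private theorem root_pow {d : ℕ} (h : rootsOfUnity d ℂ) : ((h : ℂˣ) : ℂ) ^ d = 1 := by
  have h1 := congrArg Units.val ((mem_rootsOfUnity d (h : ℂˣ)).1 h.2)
  simpa using h1

omit [∀ s, NeZero (Y.d s)] [∀ s i, NeZero (Y.M s i)] in
private theorem dL₁ (s : S₁) : Y.d s ∣ Y.L :=
  Dvd.dvd.mul_right (Dvd.dvd.mul_left (Finset.dvd_prod_of_mem Y.d (Finset.mem_univ s)) 2) _

omit [∀ s, NeZero (Y.d s)] [∀ s i, NeZero (Y.M s i)] in
private theorem dL₂ (s : S₂) (i : Fin (Y.l s)) : Y.M s i ∣ Y.L :=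
  Dvd.dvd.mul_left ((Finset.dvd_prod_of_mem (Y.M s) (Finset.mem_univ i)).trans
    (Finset.dvd_prod_of_mem (fun s => ∏ i, Y.M s i) (Finset.mem_univ s))) _

private theorem root_L {d L : ℕ} (hd : d ∣ L) (h : rootsOfUnity d ℂ) :
    ((h : ℂˣ) : ℂ) ^ L = 1 := by
  obtain ⟨e, rfl⟩ := hd
  rw [pow_mul, root_pow, one_pow]

private theorem sgn_pow {n : ℕ} (π : Equiv.Perm (Fin n)) (e : ℕ) :
    ((Equiv.Perm.sign π : ℤ) : ℂ) ^ (2 * e) = 1 := by
  rw [pow_mul]
  rcases Int.units_eq_one_or (Equiv.Perm.sign π) with h | h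
  · rw [h]
    simp
  · rw [h]
    simp

omit [∀ s, NeZero (Y.d s)] [∀ s i, NeZero (Y.M s i)] in
theorem om_pow (s : S₁ ⊕ S₂ ⊕ S₃) (b : Y.Form s) (g : Y.G s) : Y.om s b g ^ Y.L = 1 := by
  rcases s with s | s | s
  · change (∏ j, (((g : Fin (Y.r s * Y.d s) → rootsOfUnity (Y.d s) ℂ) j : ℂˣ) : ℂ)) ^ Y.L = 1
    rw [← Finset.prod_pow]
    exact Finset.prod_eq_one fun j _ => root_L (dL₁ Y s) _
  · change (∏ i, (((g : ∀ i, rootsOfUnity (Y.M s i) ℂ) i : ℂˣ) : ℂ) ^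
      (b : {a : Fin (Y.l s) → ℕ // ∀ i, 0 < a i ∧ a i < Y.M s i}).1 i) ^ Y.L = 1
    rw [← Finset.prod_pow]
    refine Finset.prod_eq_one fun i _ => ?_
    rw [← pow_mul, mul_comm, pow_mul, root_L (dL₂ Y s i), one_pow]
  · change ((Equiv.Perm.sign (g : DWK.Mon ℂ).π : ℤ) : ℂ) ^ Y.L = 1
    unfold Fly.L
    rw [mul_assoc]
    exact sgn_pow _ _

private theorem pow_cast {d : ℕ} [NeZero d] (h : rootsOfUnity d ℂ) (a : ℕ) :
    ((h : ℂˣ) : ℂ) ^ ((a : ZMod d)).val = ((h : ℂˣ) : ℂ) ^ a := by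
  rw [ZMod.val_natCast]
  exact (pow_eq_pow_mod a (root_pow h)).symm

theorem chi_cj (s : S₁ ⊕ S₂ ⊕ S₃) (t : ℕ) (b : Y.Form s) (g : Y.G s)
    (ht : t.Coprime Y.L) :
    Y.chi s (Y.cj s t b) g = Y.om s b g ^ t := by
  rcases s with s | s | s
  · change (∏ j, (((g : Fin (Y.r s * Y.d s) → rootsOfUnity (Y.d s) ℂ) j : ℂˣ) : ℂ) ^
      ((t : ZMod (Y.d s))).val) =
      (∏ j, (((g : Fin (Y.r s * Y.d s) → rootsOfUnity (Y.d s) ℂ) j : ℂˣ) : ℂ)) ^ t
    rw [← Finset.prod_pow]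
    exact Finset.prod_congr rfl fun j _ => pow_cast _ _
  · obtain ⟨a, ha⟩ : ∃ a : Fin (Y.l s) → ℕ,
        a = (b : {a : Fin (Y.l s) → ℕ // ∀ i, 0 < a i ∧ a i < Y.M s i}).1 := ⟨_, rfl⟩
    change (∏ i, (((g : ∀ i, rootsOfUnity (Y.M s i) ℂ) i : ℂˣ) : ℂ) ^
      (((t * (b : {a : Fin (Y.l s) → ℕ // ∀ i, 0 < a i ∧ a i < Y.M s i}).1 i : ℕ) :
        ZMod (Y.M s i))).val) =
      (∏ i, (((g : ∀ i, rootsOfUnity (Y.M s i) ℂ) i : ℂˣ) : ℂ) ^
        (b : {a : Fin (Y.l s) → ℕ // ∀ i, 0 < a i ∧ a i < Y.M s i}).1 i) ^ t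
    rw [← ha, ← Finset.prod_pow]
    refine Finset.prod_congr rfl fun i _ => ?_
    rw [pow_cast, ← pow_mul, mul_comm]
  · change ((Equiv.Perm.sign (g : DWK.Mon ℂ).π : ℤ) : ℂ) =
      ((Equiv.Perm.sign (g : DWK.Mon ℂ).π : ℤ) : ℂ) ^ t
    have h1 : Odd t := by
      have h2 : t.Coprime 2 := by
        refine Nat.Coprime.coprime_dvd_right ?_ ht
        unfold Fly.L
        rw [mul_assoc]
        exact Dvd.intro _ rfl
      exact Nat.coprime_two_right.1 h2
    obtain ⟨e, rfl⟩ := h1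
    rw [pow_add, sgn_pow, pow_one, one_mul]

/-- the projection to the part with the character `c` -/
def Fly.pr {W : Type} [AddCommGroup W] [Module ℂ W] (s : S₁ ⊕ S₂ ⊕ S₃) (c : Y.K s)
    (f : Y.P s → W) (p : Y.P s) : W := ∑ κ : Y.K s, Y.wt s c κ • f (Y.av s κ p)

/-- the projection to the part with the characters `c` and `c'`, for functions of two points -/
def Fly.pr2 {W : Type} [AddCommGroup W] [Module ℂ W] (s s' : S₁ ⊕ S₂ ⊕ S₃) (c : Y.K s)
    (c' : Y.K s') (f : Y.P s → Y.P s' → W) (p : Y.P s) (q : Y.P s') : W :=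
  ∑ κ : Y.K s, ∑ κ' : Y.K s', (Y.wt s c κ * Y.wt s' c' κ') • f (Y.av s κ p) (Y.av s' κ' q)

variable {W : Type} [AddCommGroup W] [Module ℂ W]

private theorem shift {ι : Type} [Fintype ι] [DecidableEq ι] {d : ι → ℕ} [∀ i, NeZero (d i)]
    {P : Type} (f : P → W) (A : (∀ i, ZMod (d i)) → P → P) (c : ∀ i, ZMod (d i)) (z : ∀ i, ZMod (d i))
    (p p' : P) (h : ∀ κ, A κ p' = A (κ + z) p) :
    ∑ κ : (∀ i, ZMod (d i)), (∏ i, ((d i : ℂ)⁻¹ * psi (-(c i * κ i)))) • f (A κ p') =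
      (∏ i, psi (c i * z i)) •
        ∑ κ : (∀ i, ZMod (d i)), (∏ i, ((d i : ℂ)⁻¹ * psi (-(c i * κ i)))) • f (A κ p) := by
  rw [Finset.smul_sum]
  refine Fintype.sum_equiv (Equiv.addRight z) _ _ fun κ => ?_
  rw [h, smul_smul]
  congr 1
  rw [← Finset.prod_mul_distrib]
  refine Finset.prod_congr rfl fun i _ => ?_
  rw [mul_left_comm, ← GBB.psi_add]
  congr 2
  simp only [Equiv.coe_addRight, Pi.add_apply]
  ring

private theorem mul_twice {d N : ℕ} (g h : Fin N → rootsOfUnity d ℂ)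
    (p : ℙ ℂ (Fin N → ℂ)) : BBP.mul g (BBP.mul h p) = BBP.mul (fun j => g j * h j) p := by
  obtain ⟨a, ha⟩ := Projectivization.exists_smul_eq_mk_rep ℂ
    (fun j => ((h j : ℂˣ) : ℂ) * p.rep j) (BBP.mul_ne h p)
  have h1 : ∀ j, (BBP.mul h p).rep j = (a : ℂ) * (((h j : ℂˣ) : ℂ) * p.rep j) := by
    intro j
    have h2 := congrFun ha j
    rw [Pi.smul_apply, Units.smul_def, smul_eq_mul] at h2
    exact h2.symm
  refine (Projectivization.mk_eq_mk_iff ℂ _ _ (BBP.mul_ne g (BBP.mul h p))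
    (BBP.mul_ne (fun j => g j * h j) p)).2 ⟨a, ?_⟩
  funext j
  rw [Pi.smul_apply, Units.smul_def, smul_eq_mul, h1]
  simp only [Subgroup.coe_mul, Units.val_mul]
  ring

private theorem rt_pow {d : ℕ} [NeZero d] (z c : ZMod d) :
    (((BBP.rt z : rootsOfUnity d ℂ) : ℂˣ) : ℂ) ^ c.val = psi (c * z) := by
  rw [BBP.rt_val]
  have h1 : ∀ n : ℕ, psi z ^ n = psi ((n : ZMod d) * z) := by
    intro n
    induction n with
    | zero => rw [pow_zero, Nat.cast_zero, zero_mul, GBB.psi_zero]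
    | succ n ih =>
      rw [pow_succ, ih, ← GBB.psi_add, Nat.cast_succ]
      congr 1
      ring
  rw [h1, ZMod.natCast_zmod_val]

omit [Fintype S₁] [Fintype S₂] in
theorem pr_act₁ (s : S₁) (c : Y.K (.inl s)) (f : Y.P (.inl s) → W) (g : Y.G (.inl s))
    (p : Y.P (.inl s)) :
    Y.pr (.inl s) c f (Y.act (.inl s) g p) = Y.chi (.inl s) c g • Y.pr (.inl s) c f p := by
  obtain ⟨z, rfl⟩ := BBP.exists_rtv (g : Fin (Y.r s * Y.d s) → rootsOfUnity (Y.d s) ℂ)
  have h1 := shift (d := fun _ : Fin (Y.r s * Y.d s) => Y.d s) f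
    (fun κ p => Y.act (.inl s) (BBP.rtv κ) p) c z p (Y.act (.inl s) (BBP.rtv z) p) fun κ => by
      refine Subtype.ext (funext fun e => ?_)
      refine (mul_twice _ _ _).trans ?_
      rw [BBP.rtv_add]
      rfl
  have h2 : Y.chi (.inl s) c (BBP.rtv z) =
      ∏ i : Fin (Y.r s * Y.d s), psi ((c : Fin (Y.r s * Y.d s) → ZMod (Y.d s)) i * z i) :=
    Finset.prod_congr rfl fun j _ => rt_pow _ _
  rw [h2]
  exact h1

omit [Fintype S₁] [Fintype S₂] in
theorem pr_act₂ (s : S₂) (c : Y.K (.inr (.inl s))) (f : Y.P (.inr (.inl s)) → W)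
    (g : Y.G (.inr (.inl s))) (p : Y.P (.inr (.inl s))) :
    Y.pr (.inr (.inl s)) c f (Y.act (.inr (.inl s)) g p) =
      Y.chi (.inr (.inl s)) c g • Y.pr (.inr (.inl s)) c f p := by
  choose z hz using fun i => BBP.exists_rt ((g : ∀ i, rootsOfUnity (Y.M s i) ℂ) i)
  have hg : g = fun i => BBP.rt (z i) := funext hz
  rw [hg]
  have h1 := shift (d := Y.M s) f
    (fun κ p => Y.act (.inr (.inl s)) (fun i => BBP.rt (κ i)) p) c z p
      (Y.act (.inr (.inl s)) (fun i => BBP.rt (z i)) p) fun κ => by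
      refine Subtype.ext (funext fun e => ?_)
      refine (mul_twice _ _ _).trans ?_
      have h2 : (fun j => (![BBP.rt (κ e), 1] : Fin 2 → rootsOfUnity (Y.M s e) ℂ) j *
          (![BBP.rt (z e), 1] : Fin 2 → rootsOfUnity (Y.M s e) ℂ) j) =
          ![BBP.rt (κ e + z e), 1] := by
        funext j
        fin_cases j
        · exact (rt_add _ _).symm
        · exact one_mul _
      exact congrArg (fun v => BBP.mul v (p.1 e)) h2
  have h2 : Y.chi (.inr (.inl s)) c (fun i => BBP.rt (z i)) =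
      ∏ i : Fin (Y.l s), psi ((c : ∀ i : Fin (Y.l s), ZMod (Y.M s i)) i * z i) :=
    Finset.prod_congr rfl fun j _ => rt_pow _ _
  rw [h2]
  exact h1

end Pool.Agent.BBX
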