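import Pool.Agent.BBX.Cl
import Pool.Agent.BBX.InstA
import Pool.Agent.BBP.Swap
import Pool.Agent.BBP.Final
import Pool.Agent.BBQ.CharsG
import Pool.Agent.WBP.CharK

/-!
# The varieties of the first kind

`fam Y` are the data of `Pool/Agent/BBP` with the trivial groups `H`. A class function on `Y ^ k`
gives for fixed points of the kinds 2 and 3 a linear map on the classes of zero-cycles for `fam Y`
(`IsCl.part`), so the theorems about these classes (`BBP.Fam.Good`) can be used (`cases₁`).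
`pr_swap₁` is the exchange of two factors.
-/

set_option autoImplicit false

noncomputable section

namespace Pool.Agent.BBX

open Pool.Agent.ZCyc Pool.Agent.BBM Pool.Agent.BBP
open Pool.Agent.GBB (zeta psi chi Typ)
open scoped LinearAlgebra.Projectivization Classical

variable {S₁ S₂ S₃ : Type} {Y : Fly S₁ S₂ S₃}

/-- the varieties of the first kind, with trivial groups -/
def fam (Y : Fly S₁ S₂ S₃) : Fam S₁ where
  d := Y.d
  N := fun s => Y.r s * Y.d s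
  r := Y.r
  n := fun s => Y.r s * Y.d s - Y.r s - 1
  c := Y.c
  H := fun _ => ⊥

instance famNZ [h : ∀ s, NeZero (Y.d s)] : ∀ s, NeZero ((fam Y).d s) := h

theorem fam_good [Fintype S₁] [∀ s, NeZero (Y.d s)] (hY : Y.Ok) : (fam Y).Good (S := S₁) := by
  have hw : ∀ s, ∑ _j : Fin (Y.r s * Y.d s), 1 = Y.r s * Y.d s := by
    intro s
    simp
  have hw2 : ∀ s, ∑ _j : Fin (Y.r s * Y.d s), (max 2 1) = Y.r s * Y.d s * 2 := by
    intro s
    simp
  have hr : ∀ s, 0 < Y.r s := by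
    intro s
    have h1 := (hY.dim₁ s).2
    rcases Nat.eq_zero_or_pos (Y.r s) with h2 | h2
    · rw [h2] at h1
      omega
    · exact h2
  refine ⟨fun s => ?_, fun s => ?_, ?_, ?_⟩
  · have h1 := (hY.dim₁ s).2
    change 1 ≤ Y.r s * Y.d s - Y.r s - 1
    omega
  · have h1 := (hY.dim₁ s).2
    change Y.r s < Y.r s * Y.d s
    omega
  · refine BBQ.chars_general (Φ := fam Y) (fun s _ => 1)
      (fun s j => ⟨one_dvd _, ?_⟩) (fun s ζ hζ => ?_) (fun s j => ?_) (fun s => ?_) ?_ (fun s => ?_)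
    · have h1 := (hY.dim₁ s).1
      change 1 < Y.d s
      omega
    · have h1 : ζ = 1 := funext fun j => by simpa using hζ j
      rw [h1]
      exact one_mem _
    · have h1 := hw s
      have h2 := (hY.dim₁ s).1
      change Y.r s * Y.d s + 1 < ∑ _j : Fin (Y.r s * Y.d s), 1 + Y.d s
      omega
    · left
      exact (hw s).ge
    · intro s s'
      left
      left
      exact (hw s).ge
    · refine WBP.exists_division (fun j => ?_) ?_ (Or.inr (Or.inl fun _ => rfl))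
      · have h1 := hw s
        have h2 := (hY.dim₁ s).1
        change Y.r s * Y.d s + 1 < ∑ _j : Fin (Y.r s * Y.d s), 1 + Y.d s
        omega
      · have h1 := (hY.dim₁ s).1
        exact Nat.mul_pos (hr s) (by omega)
  · intro s a _ t b hT p hp q hq
    refine swap_of_minors (fam Y) s ?_ (hY.smooth s) a t b hT hp hq
    have h1 := (hY.dim₁ s).2
    change Y.r s * Y.d s = Y.r s * Y.d s - Y.r s - 1 + Y.r s + 1
    omega

/-! ### Points -/

/-- the point in the projective space -/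
def KOne_pv {s : S₁} (p : Y.P (.inl s)) : ℙ ℂ (Fin (Y.r s * Y.d s) → ℂ) :=
  (show {p : Unit → ℙ ℂ (Fin (Y.r s * Y.d s) → ℂ) //
    ∀ i, ∑ j, Y.c s i j * (p ()).rep j ^ Y.d s = 0} from p).1 ()

/-- the point of the variety -/
def KOne_mk {s : S₁} (p : ℙ ℂ (Fin (Y.r s * Y.d s) → ℂ)) (hp : p ∈ DCI57.Diag (Y.d s) (Y.c s)) :
    Y.P (.inl s) :=
  show {p : Unit → ℙ ℂ (Fin (Y.r s * Y.d s) → ℂ) //
    ∀ i, ∑ j, Y.c s i j * (p ()).rep j ^ Y.d s = 0} from ⟨fun _ => p, hp⟩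

theorem KOne_pv_mem {s : S₁} (p : Y.P (.inl s)) : KOne_pv p ∈ DCI57.Diag (Y.d s) (Y.c s) :=
  (show {p : Unit → ℙ ℂ (Fin (Y.r s * Y.d s) → ℂ) //
    ∀ i, ∑ j, Y.c s i j * (p ()).rep j ^ Y.d s = 0} from p).2

theorem KOne_pv_mk {s : S₁} (p : ℙ ℂ (Fin (Y.r s * Y.d s) → ℂ))
    (hp : p ∈ DCI57.Diag (Y.d s) (Y.c s)) : KOne_pv (KOne_mk p hp) = p := rfl

theorem KOne_mk_pv {s : S₁} (p : Y.P (.inl s)) : KOne_mk (KOne_pv p) (KOne_pv_mem p) = p := rfl

/-- a point of the first kind -/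
def KOne_pt {s : S₁} (p : (fam Y).P s) : Y.P (.inl s) := KOne_mk p.1 p.2

/-- a point of the first kind -/
def KOne_tp {s : S₁} (p : Y.P (.inl s)) : (fam Y).P s := ⟨KOne_pv p, KOne_pv_mem p⟩

variable [Fintype S₁] [Fintype S₂] [Fintype S₃] [∀ s, NeZero (Y.d s)] [∀ s i, NeZero (Y.M s i)]
  {W : Type} [AddCommGroup W] [Module ℂ W]

/-! ### The coefficients -/

omit [Fintype S₁] [Fintype S₂] [Fintype S₃] [∀ s i, NeZero (Y.M s i)] in
private theorem KOne_psi_sum {d : ℕ} [NeZero d] {ι : Type} (A : Finset ι) (f : ι → ZMod d) :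
    psi (∑ j ∈ A, f j) = ∏ j ∈ A, psi (f j) := by
  induction A using Finset.induction_on with
  | empty => rw [Finset.sum_empty, Finset.prod_empty, GBB.psi_zero]
  | insert i A hi ih => rw [Finset.sum_insert hi, Finset.prod_insert hi, GBB.psi_add, ih]

/-- the coefficients, as a function of the exponents -/
def KOne_c (Y : Fly S₁ S₂ S₃) [∀ s, NeZero (Y.d s)] (s : S₁)
    (c κ : Fin (Y.r s * Y.d s) → ZMod (Y.d s)) : ℂ :=
  ((Y.d s : ℂ)⁻¹) ^ (Y.r s * Y.d s) * chi (-c) κ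

omit [Fintype S₁] [Fintype S₂] [Fintype S₃] [∀ s i, NeZero (Y.M s i)] in
theorem KOne_wt {s : S₁} (c κ : Fin (Y.r s * Y.d s) → ZMod (Y.d s)) :
    Y.wt (.inl s) c κ = KOne_c Y s c κ := by
  change ∏ j, ((Y.d s : ℂ)⁻¹ * psi (-(c j * κ j))) = _
  unfold KOne_c
  rw [Finset.prod_mul_distrib, Finset.prod_const, Finset.card_univ, Fintype.card_fin]
  congr 1
  change _ = psi (∑ j, (-c) j * κ j)
  rw [KOne_psi_sum]
  refine Finset.prod_congr rfl fun j _ => ?_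
  rw [Pi.neg_apply, neg_mul]

omit [Fintype S₁] [Fintype S₂] [Fintype S₃] [∀ s i, NeZero (Y.M s i)] in
theorem KOne_av {s : S₁} (κ : Fin (Y.r s * Y.d s) → ZMod (Y.d s)) (p : Y.P (.inl s)) :
    KOne_pv (Y.act (.inl s) (rtv κ) p) = DCI57.act (zeta (Y.d s)) κ (KOne_pv p) :=
  mul_rtv κ (KOne_pv p)

omit [Fintype S₁] [Fintype S₂] [Fintype S₃] in
theorem KOne_pr {s : S₁} (c : Fin (Y.r s * Y.d s) → ZMod (Y.d s)) (f : Y.P (.inl s) → W)
    (p : Y.P (.inl s)) : Y.pr (.inl s) c f p = ∑ κ : Fin (Y.r s * Y.d s) → ZMod (Y.d s),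
      KOne_c Y s c κ • f (Y.act (.inl s) (rtv κ) p) := by
  change ∑ κ : Fin (Y.r s * Y.d s) → ZMod (Y.d s),
    Y.wt (.inl s) c κ • f (Y.act (.inl s) (rtv κ) p) = _
  refine Finset.sum_congr rfl fun κ _ => ?_
  rw [KOne_wt]

omit [Fintype S₁] [Fintype S₂] [Fintype S₃] in
theorem KOne_pr2 {s s' : S₁} (c : Fin (Y.r s * Y.d s) → ZMod (Y.d s))
    (c' : Fin (Y.r s' * Y.d s') → ZMod (Y.d s')) (f : Y.P (.inl s) → Y.P (.inl s') → W)
    (p : Y.P (.inl s)) (q : Y.P (.inl s')) :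
    Y.pr2 (.inl s) (.inl s') c c' f p q = ∑ κ : Fin (Y.r s * Y.d s) → ZMod (Y.d s),
      ∑ κ' : Fin (Y.r s' * Y.d s') → ZMod (Y.d s'), (KOne_c Y s c κ * KOne_c Y s' c' κ') •
        f (Y.act (.inl s) (rtv κ) p) (Y.act (.inl s') (rtv κ') q) := by
  change ∑ κ : Fin (Y.r s * Y.d s) → ZMod (Y.d s),
    ∑ κ' : Fin (Y.r s' * Y.d s') → ZMod (Y.d s'), (Y.wt (.inl s) c κ * Y.wt (.inl s') c' κ') •
        f (Y.act (.inl s) (rtv κ) p) (Y.act (.inl s') (rtv κ') q) = _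
  refine Finset.sum_congr rfl fun κ _ => Finset.sum_congr rfl fun κ' _ => ?_
  rw [KOne_wt, KOne_wt]

/-! ### Class functions of one point -/

omit [Fintype S₁] [Fintype S₂] [Fintype S₃] [∀ s i, NeZero (Y.M s i)] [∀ s, NeZero (Y.d s)] in
private theorem KOne_lin1 {s : S₁} {f : Y.P (.inl s) → W} (hf : Y.Cl1 f) :
    ∃ L : (ℙ ℂ (Fin (Y.r s * Y.d s) → ℂ) →₀ ℂ) →ₗ[ℂ] W,
      (∀ z ∈ DCI57.ratEquiv ℂ (DCI57.Diag (Y.d s) (Y.c s)), L z = 0) ∧
      ∀ (p : Y.P (.inl s)) (a : ℂ), L (Finsupp.single (KOne_pv p) a) = a • f p := by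
  obtain ⟨g, hg⟩ : ∃ g : ℙ ℂ (Fin (Y.r s * Y.d s) → ℂ) → W, ∀ p (hp : p ∈ DCI57.Diag (Y.d s)
      (Y.c s)), g p = f (KOne_mk p hp) := by
    refine ⟨fun p => if hp : p ∈ DCI57.Diag (Y.d s) (Y.c s) then f (KOne_mk p hp) else 0, ?_⟩
    intro p hp
    exact dif_pos hp
  refine ⟨Finsupp.linearCombination ℂ g, ?_, ?_⟩
  · intro z hz
    have hle : DCI57.ratEquiv ℂ (DCI57.Diag (Y.d s) (Y.c s)) ≤
        LinearMap.ker (Finsupp.linearCombination ℂ g) := by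
      rw [DCI57.ratEquiv, Submodule.span_le]
      rintro _ ⟨F, _, _, _, _, _, _, x, φ, h1, h2, a, b, v, w, hv, hw, rfl⟩
      rw [SetLike.mem_coe, LinearMap.mem_ker, map_sum, ← hf F (fun _ => x)
        (fun v => KOne_mk (φ v) (h2 v)) (fun v _ => h1 v) a b v w hv hw]
      refine Finset.sum_congr rfl fun τ _ => ?_
      rw [map_sub, Finsupp.linearCombination_single, Finsupp.linearCombination_single, one_smul,
        one_smul, hg _ (h2 _), hg _ (h2 _)]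
    exact hle hz
  · intro p a
    rw [Finsupp.linearCombination_single, hg _ (KOne_pv_mem p), KOne_mk_pv]

omit [Fintype S₁] [Fintype S₂] [Fintype S₃] in
private theorem KOne_const {s : S₁} {f : Y.P (.inl s) → W} (hf : Y.Cl1 f)
    (c : Fin (Y.r s * Y.d s) → ZMod (Y.d s)) (hc : c = 0) (p q : Y.P (.inl s)) :
    Y.pr (.inl s) c f p = Y.pr (.inl s) c f q := by
  obtain ⟨L, hL, hf'⟩ := KOne_lin1 hf
  have h1 : ∀ p : Y.P (.inl s), Y.pr (.inl s) c f p =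
      ((Y.d s : ℂ)⁻¹) ^ (Y.r s * Y.d s) • L (DCI57.op (zeta (Y.d s)) (chi (-c))
        (Finsupp.single (KOne_pv p) 1)) := by
    intro p
    rw [DCI57.op_single, map_sum, Finset.smul_sum, KOne_pr]
    refine Finset.sum_congr rfl fun κ _ => ?_
    rw [← KOne_av, hf', smul_smul]
    rfl
  rw [h1, h1]
  congr 1
  rw [← sub_eq_zero, ← map_sub]
  refine hL _ (DCI57.trivial_part (R := ℂ) (GBB.zeta_prim (Y.d s)) (Y.c s) (KOne_pv_mem p)
    (KOne_pv_mem q) ?_)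
  intro t
  change psi (∑ j, (-c) j * t j) = 1
  rw [hc]
  simp [GBB.psi_zero]

/-! ### Class functions of two points -/

omit [Fintype S₁] [Fintype S₂] [Fintype S₃] [∀ s i, NeZero (Y.M s i)] [∀ s, NeZero (Y.d s)] in
private theorem KOne_lin2 {s : S₁} {f : Y.P (.inl s) → Y.P (.inl s) → W} (hf : Y.Cl2 f) :
    ∃ L : (ℙ ℂ (Fin (Y.r s * Y.d s) → ℂ) × ℙ ℂ (Fin (Y.r s * Y.d s) → ℂ) →₀ ℂ) →ₗ[ℂ] W,
      (∀ z ∈ ratEquiv2x ℂ (DCI57.Diag (Y.d s) (Y.c s)) (DCI57.Diag (Y.d s) (Y.c s)), L z = 0) ∧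
      ∀ (p q : Y.P (.inl s)) (a : ℂ),
        L (Finsupp.single (KOne_pv p, KOne_pv q) a) = a • f p q := by
  obtain ⟨g, hg⟩ : ∃ g : ℙ ℂ (Fin (Y.r s * Y.d s) → ℂ) × ℙ ℂ (Fin (Y.r s * Y.d s) → ℂ) → W,
      ∀ p (hp : p ∈ DCI57.Diag (Y.d s) (Y.c s)) q (hq : q ∈ DCI57.Diag (Y.d s) (Y.c s)),
        g (p, q) = f (KOne_mk p hp) (KOne_mk q hq) := by
    refine ⟨fun p => if hp : p.1 ∈ DCI57.Diag (Y.d s) (Y.c s) ∧ p.2 ∈ DCI57.Diag (Y.d s) (Y.c s)
      then f (KOne_mk p.1 hp.1) (KOne_mk p.2 hp.2) else 0, ?_⟩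
    intro p hp q hq
    exact dif_pos (⟨hp, hq⟩ : p ∈ DCI57.Diag (Y.d s) (Y.c s) ∧ q ∈ DCI57.Diag (Y.d s) (Y.c s))
  refine ⟨Finsupp.linearCombination ℂ g, ?_, ?_⟩
  · intro z hz
    have hle : ratEquiv2x ℂ (DCI57.Diag (Y.d s) (Y.c s)) (DCI57.Diag (Y.d s) (Y.c s)) ≤
        LinearMap.ker (Finsupp.linearCombination ℂ g) := by
      rw [ratEquiv2x, Submodule.span_le]
      rintro _ ⟨F, _, _, _, _, _, _, x, y, φ, ψ, h1, h2, h3, h4, a, b, v, w, hv, hw, rfl⟩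
      rw [SetLike.mem_coe, LinearMap.mem_ker, map_sum, ← hf F (fun _ => x) (fun _ => y)
        (fun v => KOne_mk (φ v) (h3 v)) (fun v => KOne_mk (ψ v) (h4 v)) (fun v _ => h1 v)
        (fun v _ => h2 v) a b v w hv hw]
      refine Finset.sum_congr rfl fun τ _ => ?_
      rw [map_sub, Finsupp.linearCombination_single, Finsupp.linearCombination_single, one_smul,
        one_smul, hg _ (h3 _) _ (h4 _), hg _ (h3 _) _ (h4 _)]
    exact hle hz
  · intro p q a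
    rw [Finsupp.linearCombination_single, hg _ (KOne_pv_mem p) _ (KOne_pv_mem q), KOne_mk_pv,
      KOne_mk_pv]

omit [Fintype S₁] [Fintype S₂] [Fintype S₃] in
private theorem KOne_op2 {s : S₁} {f : Y.P (.inl s) → Y.P (.inl s) → W}
    {L : (ℙ ℂ (Fin (Y.r s * Y.d s) → ℂ) × ℙ ℂ (Fin (Y.r s * Y.d s) → ℂ) →₀ ℂ) →ₗ[ℂ] W}
    (hL : ∀ (p q : Y.P (.inl s)) (a : ℂ),
        L (Finsupp.single (KOne_pv p, KOne_pv q) a) = a • f p q)
    (c : Fin (Y.r s * Y.d s) → ZMod (Y.d s)) (p q : Y.P (.inl s)) :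
    Y.pr2 (.inl s) (.inl s) c c f p q =
      (((Y.d s : ℂ)⁻¹) ^ (Y.r s * Y.d s) * ((Y.d s : ℂ)⁻¹) ^ (Y.r s * Y.d s)) •
        L (op2x (zeta (Y.d s)) (zeta (Y.d s)) (chi (-c)) (chi (-c))
          (Finsupp.single (KOne_pv p, KOne_pv q) 1)) := by
  rw [op2x, Finsupp.linearCombination_single, one_smul, map_sum, Finset.smul_sum, KOne_pr2]
  refine Finset.sum_congr rfl fun κ _ => ?_
  rw [map_sum, Finset.smul_sum]
  refine Finset.sum_congr rfl fun κ' _ => ?_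
  rw [← KOne_av, ← KOne_av, hL, smul_smul]
  congr 1
  unfold KOne_c
  ring

omit [Fintype S₁] [Fintype S₂] [Fintype S₃] in
theorem pr_swap₁ (hY : Y.Ok) {s : S₁} {f : Y.P (.inl s) → Y.P (.inl s) → W} (hf : Y.Cl2 f)
    {t : ℕ} (ht : t.Coprime (Y.d s)) (p q : Y.P (.inl s)) :
    Y.pr2 (.inl s) (.inl s) (fun _ : Fin (Y.r s * Y.d s) => (t : ZMod (Y.d s)))
        (fun _ : Fin (Y.r s * Y.d s) => (t : ZMod (Y.d s))) f p q =
      (-1 : ℂ) ^ Y.n (.inl s) •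
        Y.pr2 (.inl s) (.inl s) (fun _ : Fin (Y.r s * Y.d s) => (t : ZMod (Y.d s)))
          (fun _ : Fin (Y.r s * Y.d s) => (t : ZMod (Y.d s))) f q p := by
  obtain ⟨L, hL, hf'⟩ := KOne_lin2 hf
  rw [KOne_op2 hf', KOne_op2 hf']
  have h1 := (hY.dim₁ s).2
  have h0 := (hY.dim₁ s).1
  set a : Fin (Y.r s * Y.d s) → ZMod (Y.d s) := -fun _ => (t : ZMod (Y.d s)) with ha
  have hT : Typ (Y.r s) a (-ZMod.unitOfCoprime t ht) (fun _ : Fin (Y.r s * Y.d s) => 1) := by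
    have hsum : ∑ _j : Fin (Y.r s * Y.d s), 1 = Y.r s * Y.d s := by simp
    have hr : 0 < Y.r s := by
      rcases Nat.eq_zero_or_pos (Y.r s) with h2 | h2
      · rw [h2] at h1
        omega
      · exact h2
    have hat : ∀ j, a j = ((-ZMod.unitOfCoprime t ht : (ZMod (Y.d s))ˣ) : ZMod (Y.d s)) := by
      intro j
      rw [ha, Units.val_neg, ZMod.coe_unitOfCoprime]
      rfl
    obtain ⟨B, hB⟩ := WBP.exists_division (r := Y.r s) (d := Y.d s) (N := Y.r s * Y.d s)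
      (w := fun _ => 1) (fun j => by rw [hsum]; omega) (Nat.mul_pos hr (by omega))
      (Or.inr (Or.inl fun _ => rfl)) (fun _ => 1) (fun _ => one_pos) (fun _ => one_dvd _) hsum
    refine ⟨fun _ => one_pos, hsum, fun j => ?_, fun j => ?_, B, fun i => ?_, fun i => ?_⟩
    · rw [hat, Nat.cast_one, mul_one]
    · rw [hat]
      have : Nontrivial (ZMod (Y.d s)) := ZMod.nontrivial_iff.2 (by omega)
      exact Units.ne_zero _
    · by_contra hcon
      push Not at hcon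
      have h2 := hB i
      rw [Finset.filter_false_of_mem (fun j _ => hcon j), Finset.sum_empty] at h2
      omega
    · rw [Finset.sum_congr rfl fun j _ => hat j, Finset.sum_const, nsmul_eq_mul]
      have h2 := hB i
      rw [Finset.sum_const, smul_eq_mul, mul_one] at h2
      rw [h2, ZMod.natCast_self, zero_mul]
  have h2 : op2x (zeta (Y.d s)) (zeta (Y.d s)) (chi a) (chi a)
        (Finsupp.single (KOne_pv p, KOne_pv q) 1) - (-1 : ℂ) ^ (Y.n (.inl s)) •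
      op2x (zeta (Y.d s)) (zeta (Y.d s)) (chi a) (chi a)
        (Finsupp.single (KOne_pv q, KOne_pv p) 1) ∈
      ratEquiv2x ℂ (DCI57.Diag (Y.d s) (Y.c s)) (DCI57.Diag (Y.d s) (Y.c s)) :=
    swap_of_minors (fam Y) s (by
      change Y.r s * Y.d s = Y.r s * Y.d s - Y.r s - 1 + Y.r s + 1
      omega) (hY.smooth s) a _ _ hT (KOne_pv_mem p) (KOne_pv_mem q)
  have h3 := hL _ h2
  rw [map_sub, map_smul, sub_eq_zero] at h3
  rw [smul_comm ((-1 : ℂ) ^ _), h3]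

/-! ### Class functions of the points in the slots of the first kind -/

variable {k : S₁ ⊕ S₂ ⊕ S₃ → ℕ} {F : Pts Y.P k → W}

omit [Fintype S₃] in
private theorem KOne_linV (hF : Y.sys.IsCl F) (x : Pts Y.P k) :
    ∃ L : (fam Y).V (fun s => k (.inl s)) →ₗ[ℂ] W,
      ∀ p : Pts (fam Y).P (fun s => k (.inl s)),
        L (cl p) = F (insL (fun i => KOne_pt (p i)) x) := by
  set g : Pts (fam Y).P (fun s => k (.inl s)) → W :=
    fun p => F (insL (fun i => KOne_pt (p i)) x) with hg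
  have hle : (fam Y).ratEq ℂ (fun s => k (.inl s)) ≤
      LinearMap.ker (Finsupp.linearCombination ℂ g) := by
    unfold Fam.ratEq
    refine sup_le (Submodule.span_le.2 ?_) (Submodule.span_le.2 ?_)
    · rintro _ ⟨F', _, _, _, _, _, _, y, φ, h1, a, b, v, w, hv, hw, rfl⟩
      rw [SetLike.mem_coe, LinearMap.mem_ker, map_sum, ← IsCl.part hF x F' y
        (fun v i => KOne_pt (φ v i)) h1 a b v w hv hw]
      refine Finset.sum_congr rfl fun τ _ => ?_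
      rw [map_sub, Finsupp.linearCombination_single, Finsupp.linearCombination_single, one_smul,
        one_smul]
    · rintro _ ⟨p, h, hh, rfl⟩
      have h1 : (fun i => (fam Y).act i.1 (h i) (p i)) = p := by
        funext i
        rw [(Subgroup.mem_bot.1 (hh i) : h i = 1), BBP.act_one]
      rw [SetLike.mem_coe, LinearMap.mem_ker, h1, sub_self, map_zero]
  refine ⟨Submodule.liftQ _ _ hle, fun p => ?_⟩
  unfold cl
  rw [Submodule.liftQ_apply, Finsupp.linearCombination_single, one_smul]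

omit [Fintype S₃] in
private theorem KOne_sum (hF : Y.sys.IsCl F) (c : ∀ i : Idx k, Y.K i.1) (p x : Pts Y.P k)
    (a : ∀ i : Idx (fun s => k (Sum.inl s)), Fin (Y.r i.1 * Y.d i.1) → ZMod (Y.d i.1))
    (ha : ∀ i, c ⟨.inl i.1, i.2⟩ = -a i)
    (hE : E (Φ := fam Y) a (fun i => KOne_tp (p ⟨.inl i.1, i.2⟩)) = 0) :
    ∑ κ : (∀ i : Idx (fun s => k (Sum.inl s)), Y.sys.K (Sum.inl i.1)),
      (∏ i : Idx (fun s => k (Sum.inl s)),
        Y.sys.wt (Sum.inl i.1) (c ⟨Sum.inl i.1, i.2⟩) (κ i)) •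
        F (insL (fun i => Y.sys.av (Sum.inl i.1) (κ i) (p ⟨Sum.inl i.1, i.2⟩)) x) = 0 := by
  obtain ⟨L, hL⟩ := KOne_linV hF x
  have h1 := congrArg (fun v => (∏ i : Idx (fun s => k (Sum.inl s)),
    ((Y.d i.1 : ℂ)⁻¹) ^ (Y.r i.1 * Y.d i.1)) • L v) hE
  simp only [map_zero, smul_zero] at h1
  rw [← h1]
  unfold E
  rw [map_sum, Finset.smul_sum]
  change ∑ κ : (∀ i : Idx (fun s => k (Sum.inl s)), Fin (Y.r i.1 * Y.d i.1) → ZMod (Y.d i.1)),
    _ = ∑ κ : (∀ i : Idx (fun s => k (Sum.inl s)), Fin (Y.r i.1 * Y.d i.1) → ZMod (Y.d i.1)), _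
  refine Finset.sum_congr rfl fun κ _ => ?_
  rw [map_smul, hL, smul_smul, ← Finset.prod_mul_distrib]
  have h2 : ∀ i : Idx (fun s => k (Sum.inl s)),
      Y.sys.wt (Sum.inl i.1) (c ⟨Sum.inl i.1, i.2⟩) (κ i) =
      ((Y.d i.1 : ℂ)⁻¹) ^ (Y.r i.1 * Y.d i.1) * psi (∑ j, a i j * κ i j) := by
    intro i
    rw [ha i]
    refine (KOne_wt (Y := Y) (-a i) (κ i)).trans ?_
    unfold KOne_c
    rw [neg_neg]
    rfl
  rw [Finset.prod_congr rfl fun i _ => h2 i]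
  rfl

private theorem KOne_slot (c : ∀ i : Idx k, Y.K i.1) (p : Pts Y.P k) (i : Idx k)
    (q q' : Y.P i.1) (h : ∀ x : Pts Y.P k,
      ∑ κ : Y.K i.1, Y.wt i.1 (c i) κ • F (Function.update x i (Y.av i.1 κ q)) =
        ∑ κ : Y.K i.1, Y.wt i.1 (c i) κ • F (Function.update x i (Y.av i.1 κ q'))) :
    Y.sys.E c F (Function.update p i q) = Y.sys.E c F (Function.update p i q') := by
  have h1 := E_slot_congr (𝒮 := Y.sys) (F := F) c p i q q' 1 1
  simp only [one_smul] at h1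
  have e : ∀ d₁ d₂ : DecidableEq (Idx k), @Function.update (Idx k) (fun i => Y.sys.P i.1) d₁ =
      @Function.update (Idx k) (fun i => Y.sys.P i.1) d₂ := by
    intro d₁ d₂
    rw [Subsingleton.elim d₁ d₂]
  rw [e _ (inferInstance : DecidableEq (Idx k))] at h1
  exact h1 h

omit [Fintype S₂] [Fintype S₃] [∀ s i, NeZero (Y.M s i)] in
private theorem KOne_chars (hY : Y.Ok) (k₁ : S₁ → ℕ)
    (a : ∀ i : Idx k₁, Fin (Y.r i.1 * Y.d i.1) → ZMod (Y.d i.1)) (h0 : ∀ i, a i ≠ 0)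
    (hs : ∀ i, ∑ j, a i j = 0) :
    (∀ p : Pts (fam Y).P k₁, E (Φ := fam Y) a p = 0) ∨
      ∃ t : ℕ, ∀ i : Idx k₁, t.Coprime (Y.d i.1) ∧ ∀ j, a i j = -(t : ZMod (Y.d i.1)) := by
  have hch : ∀ i, a i ∈ (fam Y).Chars i.1 := by
    intro i h hh
    have h1 : rtv h = 1 := Subgroup.mem_bot.1 hh
    have h2 : ∀ j, h j = 0 := by
      intro j
      have h4 : psi (h j) = 1 := by
        rw [← rt_val]
        change ((((rtv h) j : rootsOfUnity (Y.d i.1) ℂ) : ℂˣ) : ℂ) = 1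
        rw [h1]
        simp
      exact GBB.psi_eq_one h4
    obtain ⟨h', hh'⟩ : ∃ h' : Fin (Y.r i.1 * Y.d i.1) → ZMod (Y.d i.1), h' = h := ⟨h, rfl⟩
    have h2' : ∀ j, h' j = 0 := by
      rw [hh']
      exact h2
    rw [← hh']
    change ∑ j : Fin (Y.r i.1 * Y.d i.1), a i j * h' j = 0
    exact Finset.sum_eq_zero fun j _ => by rw [h2' j, mul_zero]
  have hG : (∀ p : Pts (fam Y).P k₁, E (Φ := fam Y) a p = 0) ∨
      ∃ (t : ∀ i : Idx k₁, (ZMod (Y.d i.1))ˣ) (b : ∀ i : Idx k₁, Fin (Y.r i.1 * Y.d i.1) → ℕ),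
        (∀ i, Typ (Y.r i.1) (a i) (t i) (b i)) ∧
        ∀ i i', (t i : ZMod (Y.d i.1)).val ≡ (t i' : ZMod (Y.d i'.1)).val
          [MOD Nat.gcd (Y.d i.1) (Y.d i'.1)] := (fam_good hY).chars k₁ a hch h0 hs
  rcases hG with h | ⟨t, b, hb, htt⟩
  · exact Or.inl h
  right
  -- all `b i j` are `1`
  have hb1 : ∀ i j, b i j = 1 := by
    intro i
    have h1 := (hb i).1
    have h2 : ∑ j, b i j = ∑ _j : Fin (Y.r i.1 * Y.d i.1), 1 := by
      rw [(hb i).2.1]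
      simp
    have h3 := (Finset.sum_eq_sum_iff_of_le (s := Finset.univ)
      (f := fun _ : Fin (Y.r i.1 * Y.d i.1) => 1) (g := b i) fun j _ => h1 j).1 h2.symm
    intro j
    exact (h3 j (Finset.mem_univ j)).symm
  have hat : ∀ i j, a i j = (t i : ZMod (Y.d i.1)) := by
    intro i j
    rw [(hb i).2.2.1 j, hb1, Nat.cast_one, mul_one]
  obtain ⟨T, hT⟩ := WBP.exists_crt Finset.univ
    (fun i : Idx k₁ => Y.d i.1) (fun i => (t i : ZMod (Y.d i.1)).val)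
    (fun i _ j _ => htt i j)
  have hTt : ∀ i, ((T : ℕ) : ZMod (Y.d i.1)) = (t i : ZMod (Y.d i.1)) := by
    intro i
    have h1 := (ZMod.natCast_eq_natCast_iff _ _ _).2 (hT i (Finset.mem_univ i))
    rw [h1, ZMod.natCast_zmod_val]
  set M : ℕ := ∏ s, Y.d s with hM
  have hM0 : M ≠ 0 := Finset.prod_ne_zero_iff.2 fun s _ => NeZero.ne (Y.d s)
  have hdM : ∀ s, Y.d s ∣ M := fun s => Finset.dvd_prod_of_mem Y.d (Finset.mem_univ s)
  have hcast : ∀ i : Idx k₁, ((T * (M - 1) : ℕ) : ZMod (Y.d i.1)) = -(t i : ZMod (Y.d i.1)) := by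
    intro i
    rw [Nat.cast_mul, hTt, Nat.cast_sub (Nat.pos_of_ne_zero hM0),
      (ZMod.natCast_eq_zero_iff _ _).2 (hdM i.1)]
    simp
  refine ⟨T * (M - 1), fun i => ⟨?_, fun j => ?_⟩⟩
  · rw [← ZMod.isUnit_iff_coprime, hcast i]
    exact (t i).isUnit.neg
  · rw [hcast i, neg_neg, hat i j]

theorem cases₁ (hY : Y.Ok) {k : S₁ ⊕ S₂ ⊕ S₃ → ℕ} {F : Pts Y.P k → W} (hF : Y.sys.IsCl F)
    (c : ∀ i : Idx k, Y.K i.1) :
    (∃ i : Idx k, ∀ (p : Pts Y.P k) (q : Y.P i.1),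
      Y.sys.E c F (Function.update p i q) = Y.sys.E c F p) ∨
    (∀ p, Y.sys.E c F p = 0) ∨
    ∃ t : ℕ, (∀ s : S₁, 0 < k (.inl s) → t.Coprime (Y.d s)) ∧
      ∀ i : Idx (fun s => k (Sum.inl s)),
        c ⟨.inl i.1, i.2⟩ = fun _ : Fin (Y.r i.1 * Y.d i.1) => (t : ZMod (Y.d i.1)) := by
  obtain ⟨cc, hcc⟩ : ∃ cc : ∀ i : Idx (fun s => k (Sum.inl s)),
      Fin (Y.r i.1 * Y.d i.1) → ZMod (Y.d i.1), ∀ i, c ⟨.inl i.1, i.2⟩ = cc i :=
    ⟨fun i => c ⟨.inl i.1, i.2⟩, fun _ => rfl⟩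
  have ha : ∀ i, c ⟨.inl i.1, i.2⟩ = -(-cc i) := fun i => (hcc i).trans (neg_neg (cc i)).symm
  -- the classes vanish
  have hzero : (∀ p : Pts (fam Y).P (fun s => k (Sum.inl s)),
      E (Φ := fam Y) (fun i => -cc i) p = 0) → ∀ p, Y.sys.E c F p = 0 := by
    intro h p
    exact E_inl_zero (𝒮 := Y.sys) c p fun x => KOne_sum hF c p x (fun i => -cc i) ha (h _)
  -- a trivial character
  by_cases h0 : ∃ i, cc i = 0
  · left
    obtain ⟨i, hi⟩ := h0
    refine ⟨⟨.inl i.1, i.2⟩, fun p q => ?_⟩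
    refine (KOne_slot c p ⟨.inl i.1, i.2⟩ q (p ⟨.inl i.1, i.2⟩) fun x => ?_).trans
      (congrArg (Y.sys.E c F) (Function.update_eq_self _ p))
    have h2 := KOne_const (IsCl.slot1 hF x ⟨.inl i.1, i.2⟩) (cc i) hi q (p ⟨.inl i.1, i.2⟩)
    rw [← hcc i] at h2
    exact h2
  push Not at h0
  right
  by_cases hs : ∀ i, ∑ j, (-cc i) j = 0
  swap
  · left
    push Not at hs
    obtain ⟨i, hi⟩ := hs
    exact hzero fun p => E_zero_of_sum (Φ := fam Y) (fun i => -cc i) p i hi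
  rcases KOne_chars hY _ (fun i => -cc i) (fun i => neg_ne_zero.2 (h0 i)) hs with h | ⟨t, ht⟩
  · exact Or.inl (hzero h)
  right
  refine ⟨t, fun s hs' => (ht ⟨s, ⟨0, hs'⟩⟩).1, fun i => ?_⟩
  rw [hcc i]
  funext j
  have h1 := (ht i).2 j
  rw [Pi.neg_apply] at h1
  exact neg_injective h1

end Pool.Agent.BBX
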