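import Pool.Agent.BBM.Defs
import Mathlib

/-!
# Abstract theory: class functions and their eigenparts

`P s` are the points of the varieties of a family, `G s` sets of automorphisms, `n s` the dimensions, and
`rat m` are the zero-cycles on the product `Y ^ m` which are rationally equivalent to zero. For every `s`
there are finitely many maps `av s κ` from `P s` to itself and finitely many characters `c`; the
part of a function `f` on `P s` with the character `c` is `p ↦ ∑ κ, wt c κ • f (av κ p)`, and `f` is the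
sum of its parts. If `f` is a class function (with values in a complex vector space) then the part with
the character `c` is multiplied by `chi c g` under the automorphism `g`. The forms of the highest degree on
`Y s` are `Form s`, the form `b` is multiplied by `om b g` by `g`, and `cj t b` is the character which is the
conjugate of `om b` under `ζ ↦ ζ ^ t`, for roots of unity `ζ` with `ζ ^ L = 1`.
-/

set_option autoImplicit false

noncomputable section

namespace Pool.Agent.BBX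

open Pool.Agent.BBM
open scoped Classical

/-- The data. -/
structure Sys (S : Type) where
  /-- the points -/
  P : S → Type
  /-- the automorphisms -/
  G : S → Type
  /-- the action -/
  act : ∀ s, G s → P s → P s
  /-- the dimensions -/
  n : S → ℕ
  /-- rational equivalence -/
  rat : ∀ m : S → ℕ, Submodule ℚ (Pts P m →₀ ℚ)
  /-- finite sets of maps -/
  K : S → Type
  [fK : ∀ s, Fintype (K s)]
  /-- the maps -/
  av : ∀ s, K s → P s → P s
  /-- the identity -/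
  e : ∀ s, K s
  /-- the characters -/
  C : S → Type
  [fC : ∀ s, Fintype (C s)]
  /-- the coefficients of the projections -/
  wt : ∀ s, C s → K s → ℂ
  /-- the values of the characters -/
  chi : ∀ s, C s → G s → ℂ
  /-- the forms -/
  Form : S → Type
  /-- the characters of the forms -/
  om : ∀ s, Form s → G s → ℂ
  /-- the conjugates of the characters of the forms -/
  cj : ∀ s, ℕ → Form s → C s
  /-- the order of the roots of unity -/
  L : ℕ

attribute [instance] Sys.fK Sys.fC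

variable {S : Type}

/-- permutation of the factors -/
def permP {P : S → Type} {k : S → ℕ} (τ : ∀ s, Equiv.Perm (Fin (k s))) (p : Pts P k) : Pts P k :=
  fun i => p ⟨i.1, τ i.1 i.2⟩

/-- a class function on the product -/
def Sys.IsCl (𝒮 : Sys S) {k : S → ℕ} {W : Type} [AddCommGroup W] [Module ℂ W]
    (F : Pts 𝒮.P k → W) : Prop :=
  ∀ z ∈ 𝒮.rat k, (z.sum fun p c => (c : ℂ) • F p) = 0

/-- the part with the characters `c` -/
def Sys.E (𝒮 : Sys S) [Fintype S] {k : S → ℕ} {W : Type} [AddCommGroup W] [Module ℂ W]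
    (c : ∀ i : Idx k, 𝒮.C i.1) (F : Pts 𝒮.P k → W) (p : Pts 𝒮.P k) : W :=
  ∑ κ : (∀ i : Idx k, 𝒮.K i.1), (∏ i, 𝒮.wt i.1 (c i) (κ i)) •
    F fun i => 𝒮.av i.1 (κ i) (p i)

/-- The laws. -/
structure Sys.Ok (𝒮 : Sys S) [Fintype S] : Prop where
  L_pos : 0 < 𝒮.L
  av_e : ∀ s p, 𝒮.av s (𝒮.e s) p = p
  sum_wt : ∀ s κ, ∑ c, 𝒮.wt s c κ = if κ = 𝒮.e s then 1 else 0
  om_pow : ∀ s b g, 𝒮.om s b g ^ 𝒮.L = 1
  chi_cj : ∀ s t b g, t.Coprime 𝒮.L → 𝒮.chi s (𝒮.cj s t b) g = 𝒮.om s b g ^ t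
  eqv : ∀ {k : S → ℕ} {W : Type} [AddCommGroup W] [Module ℂ W] {F : Pts 𝒮.P k → W}, 𝒮.IsCl F →
    ∀ (c : ∀ i : Idx k, 𝒮.C i.1) (p : Pts 𝒮.P k) (i : Idx k) (g : 𝒮.G i.1),
      𝒮.E c F (Function.update p i (𝒮.act i.1 g (p i))) = 𝒮.chi i.1 (c i) g • 𝒮.E c F p
  swap : ∀ {k : S → ℕ} {W : Type} [AddCommGroup W] [Module ℂ W] {F : Pts 𝒮.P k → W}, 𝒮.IsCl F →
    ∀ (c : ∀ i : Idx k, 𝒮.C i.1) (p : Pts 𝒮.P k) (s : S) (l₁ l₂ : Fin (k s)), l₁ ≠ l₂ →
      ∀ (t : ℕ) (b : 𝒮.Form s), t.Coprime 𝒮.L → c ⟨s, l₁⟩ = 𝒮.cj s t b →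
        c ⟨s, l₂⟩ = 𝒮.cj s t b →
        𝒮.E c F (permP (Function.update (1 : ∀ s, Equiv.Perm (Fin (k s))) s
          (Equiv.swap l₁ l₂)) p) = (-1 : ℂ) ^ 𝒮.n s • 𝒮.E c F p
  cases : ∀ {k : S → ℕ} {W : Type} [AddCommGroup W] [Module ℂ W] {F : Pts 𝒮.P k → W}, 𝒮.IsCl F →
    ∀ c : ∀ i : Idx k, 𝒮.C i.1,
      (∃ i, ∀ (p : Pts 𝒮.P k) (q : 𝒮.P i.1), 𝒮.E c F (Function.update p i q) = 𝒮.E c F p) ∨
      (∀ p, 𝒮.E c F p = 0) ∨
      ∃ t : ℕ, t.Coprime 𝒮.L ∧ ∃ b : ∀ i : Idx k, 𝒮.Form i.1, ∀ i, c i = 𝒮.cj i.1 t (b i)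

/-- The combination `γ` of automorphisms of `Y ^ k` acts as zero on the forms of the highest degree. -/
def Sys.KillsTop (𝒮 : Sys S) [Fintype S] {k : S → ℕ}
    (γ : ((∀ s, Equiv.Perm (Fin (k s))) × (∀ i : Idx k, 𝒮.G i.1)) →₀ ℚ) : Prop :=
  ∀ b b' : ∀ i : Idx k, 𝒮.Form i.1,
    ∑ g ∈ γ.support.filter (fun g => ∀ i : Idx k, b' ⟨i.1, g.1 i.1 i.2⟩ = b i), (γ g : ℂ) *
      ((∏ s, (((Equiv.Perm.sign (g.1 s) : ℤˣ) : ℤ) : ℂ) ^ 𝒮.n s) *
        ∏ i : Idx k, 𝒮.om i.1 (b i) (g.2 i)) = 0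

/-! ### Decomposition -/

section

variable {𝒮 : Sys S} [Fintype S] {k : S → ℕ} {W : Type} [AddCommGroup W] [Module ℂ W]
  {F : Pts 𝒮.P k → W}

theorem sum_E (h : 𝒮.Ok) (F : Pts 𝒮.P k → W) (p : Pts 𝒮.P k) :
    ∑ c : (∀ i : Idx k, 𝒮.C i.1), 𝒮.E c F p = F p := by
  unfold Sys.E
  rw [Finset.sum_comm]
  have h1 : ∀ κ : (∀ i : Idx k, 𝒮.K i.1), ∑ c : (∀ i : Idx k, 𝒮.C i.1),
      (∏ i, 𝒮.wt i.1 (c i) (κ i)) • F (fun i => 𝒮.av i.1 (κ i) (p i)) =
      (if κ = fun i : Idx k => 𝒮.e i.1 then (1 : ℂ) else 0) •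
        F (fun i => 𝒮.av i.1 (κ i) (p i)) := by
    intro κ
    rw [← Finset.sum_smul]
    congr 1
    have h2 := Finset.prod_univ_sum (fun i : Idx k => (Finset.univ : Finset (𝒮.C i.1)))
      fun i c => 𝒮.wt i.1 c (κ i)
    rw [Fintype.piFinset_univ] at h2
    rw [← h2]
    simp only [h.sum_wt]
    by_cases hκ : κ = fun i : Idx k => 𝒮.e i.1
    · rw [if_pos hκ]
      refine Finset.prod_eq_one fun i _ => ?_
      rw [hκ, if_pos rfl]
    · rw [if_neg hκ]
      obtain ⟨i, hi⟩ := Function.ne_iff.1 hκ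
      exact Finset.prod_eq_zero (Finset.mem_univ i) (if_neg hi)
  rw [Finset.sum_congr rfl fun κ _ => h1 κ, Finset.sum_eq_single fun i : Idx k => 𝒮.e i.1]
  · rw [if_pos rfl, one_smul]
    congr 1
    funext i
    exact h.av_e _ _
  · intro κ _ hκ
    rw [if_neg hκ, zero_smul]
  · intro h1
    exact absurd (Finset.mem_univ _) h1

theorem E_act (h : 𝒮.Ok) (hF : 𝒮.IsCl F) (c : ∀ i : Idx k, 𝒮.C i.1) (g : ∀ i : Idx k, 𝒮.G i.1)
    (p : Pts 𝒮.P k) : 𝒮.E c F (fun i => 𝒮.act i.1 (g i) (p i)) =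
      (∏ i, 𝒮.chi i.1 (c i) (g i)) • 𝒮.E c F p := by
  have h1 : ∀ T : Finset (Idx k), 𝒮.E c F (fun i => if i ∈ T then 𝒮.act i.1 (g i) (p i) else p i) =
      (∏ i ∈ T, 𝒮.chi i.1 (c i) (g i)) • 𝒮.E c F p := by
    intro T
    induction T using Finset.induction_on with
    | empty =>
      rw [Finset.prod_empty, one_smul]
      congr 1
    | insert j T hj ih =>
      rw [Finset.prod_insert hj, mul_smul, ← ih, ← h.eqv hF]
      congr 1
      funext i
      by_cases hi : i = j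
      · subst hi
        rw [Function.update_self, if_pos (Finset.mem_insert_self _ _), if_neg hj]
      · rw [Function.update_of_ne hi]
        simp only [Finset.mem_insert, hi, false_or]
  have h2 := h1 Finset.univ
  simp only [Finset.mem_univ, if_true] at h2
  exact h2

/-- permutations of the factors which preserve the characters -/
theorem E_perm (h : 𝒮.Ok) (hF : 𝒮.IsCl F) (c : ∀ i : Idx k, 𝒮.C i.1) {t : ℕ}
    (ht : t.Coprime 𝒮.L) (b : ∀ i : Idx k, 𝒮.Form i.1) (hc : ∀ i, c i = 𝒮.cj i.1 t (b i))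
    (τ : ∀ s, Equiv.Perm (Fin (k s))) (hτ : ∀ i : Idx k, c ⟨i.1, τ i.1 i.2⟩ = c i)
    (p : Pts 𝒮.P k) :
    𝒮.E c F (permP τ p) = (∏ s, (((Equiv.Perm.sign (τ s) : ℤˣ) : ℤ) : ℂ) ^ 𝒮.n s) •
      𝒮.E c F p := by
  induction hs : ∑ s, (τ s).support.card using Nat.strong_induction_on generalizing τ p with
  | _ N ih =>
    by_cases h1 : ∀ s, τ s = 1
    · have h2 : permP τ p = p := by
        funext i
        simp only [permP]
        rw [h1 i.1]
        rfl
      rw [h2]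
      have h3 : ∏ s, (((Equiv.Perm.sign (τ s) : ℤˣ) : ℤ) : ℂ) ^ 𝒮.n s = 1 := by
        apply Finset.prod_eq_one
        intro s _
        rw [h1 s]
        simp
      rw [h3, one_smul]
    · push Not at h1
      obtain ⟨s₀, hs₀⟩ := h1
      obtain ⟨l, hl⟩ : ∃ l, τ s₀ l ≠ l := by
        by_contra hcon
        push Not at hcon
        exact hs₀ (Equiv.ext hcon)
      obtain ⟨σ, hσ⟩ : ∃ σ, σ = Equiv.swap l (τ s₀ l) := ⟨_, rfl⟩
      obtain ⟨τ', hτ'⟩ : ∃ τ', τ' = Function.update τ s₀ (σ * τ s₀) := ⟨_, rfl⟩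
      obtain ⟨p', hp'⟩ : ∃ p', p' = permP (Function.update
        (1 : ∀ s, Equiv.Perm (Fin (k s))) s₀ (Equiv.swap l (τ s₀ l))) p := ⟨_, rfl⟩
      have e1 : τ' s₀ = σ * τ s₀ := by rw [hτ', Function.update_self]
      have e2 : ∀ s, s ≠ s₀ → τ' s = τ s := by
        intro s hs
        rw [hτ', Function.update_of_ne hs]
      have hlt : ∑ s, (τ' s).support.card < ∑ s, (τ s).support.card := by
        apply Finset.sum_lt_sum
        · intro s _
          rcases eq_or_ne s s₀ with rfl | hs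
          · rw [e1, hσ]
            exact (Equiv.Perm.card_support_swap_mul (f := τ s) hl).le
          · rw [e2 s hs]
        · refine ⟨s₀, Finset.mem_univ _, ?_⟩
          rw [e1, hσ]
          exact Equiv.Perm.card_support_swap_mul (f := τ s₀) hl
      have hinv : ∀ x, c ⟨s₀, σ x⟩ = c ⟨s₀, x⟩ := by
        intro x
        have h4 := hτ ⟨s₀, l⟩
        rcases eq_or_ne x l with rfl | hx
        · rw [hσ, Equiv.swap_apply_left]
          exact h4
        · rcases eq_or_ne x (τ s₀ l) with rfl | hx'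
          · rw [hσ, Equiv.swap_apply_right]
            exact h4.symm
          · rw [hσ, Equiv.swap_apply_of_ne_of_ne hx hx']
      have h3 := ih _ (by rw [← hs]; exact hlt) τ' (by
        rintro ⟨s, x⟩
        rcases eq_or_ne s s₀ with rfl | hs
        · rw [e1]
          exact (hinv (τ s x)).trans (hτ ⟨s, x⟩)
        · change c ⟨s, τ' s x⟩ = c ⟨s, x⟩
          rw [e2 s hs]
          exact hτ ⟨s, x⟩) p' rfl
      have h4 : permP τ' p' = permP τ p := by
        funext i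
        obtain ⟨s, x⟩ := i
        rw [hp']
        simp only [permP]
        rcases eq_or_ne s s₀ with rfl | hs
        · rw [e1, hσ, Function.update_self]
          change p ⟨s, (Equiv.swap l (τ s l) * Equiv.swap l (τ s l)) (τ s x)⟩ = p ⟨s, τ s x⟩
          rw [Equiv.swap_mul_self, Equiv.Perm.one_apply]
        · rw [e2 s hs, Function.update_of_ne hs]
          rfl
      have h5 : 𝒮.E c F p' = (-1 : ℂ) ^ 𝒮.n s₀ • 𝒮.E c F p := by
        rw [hp']
        exact h.swap hF c p s₀ l (τ s₀ l) hl.symm t (b ⟨s₀, l⟩) ht (hc _)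
          ((hτ ⟨s₀, l⟩).trans (hc _))
      rw [← h4, h3, h5, smul_smul]
      congr 1
      have h6 : ∀ s, (((Equiv.Perm.sign (τ s) : ℤˣ) : ℤ) : ℂ) ^ 𝒮.n s =
          (((Equiv.Perm.sign (τ' s) : ℤˣ) : ℤ) : ℂ) ^ 𝒮.n s *
            (if s = s₀ then (-1 : ℂ) ^ 𝒮.n s₀ else 1) := by
        intro s
        rcases eq_or_ne s s₀ with rfl | hs
        · rw [if_pos rfl, e1, hσ, Equiv.Perm.sign_mul, Equiv.Perm.sign_swap hl.symm]
          push_cast
          rw [← mul_pow]
          congr 1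
          ring
        · rw [if_neg hs, e2 s hs, mul_one]
      rw [Finset.prod_congr rfl fun s _ => h6 s, Finset.prod_mul_distrib]
      simp

end

end Pool.Agent.BBX
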